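import Pool.Agent.Helper17.DA.Chain

set_option autoImplicit false

/-! # Linear equations with weights `± 1`: anti-concentration -/

namespace Pool.Agent.Helper17.DA

open Finset

/-! ### central binomial coefficients -/

theorem centralBinom_sq (n : ℕ) : (n.centralBinom) ^ 2 * (2 * n + 1) ≤ 4 ^ (2 * n) := by
  induction n with
  | zero => simp
  | succ n ih =>
    have h := Nat.succ_mul_centralBinom_succ n
    have h1 : ((n + 1) * (n + 1).centralBinom) ^ 2 * (2 * (n + 1) + 1) * (2 * n + 1) ≤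
        (n + 1) ^ 2 * 4 ^ (2 * (n + 1)) * (2 * n + 1) := by
      rw [h]
      calc (2 * (2 * n + 1) * n.centralBinom) ^ 2 * (2 * (n + 1) + 1) * (2 * n + 1)
          = (n.centralBinom ^ 2 * (2 * n + 1)) * (4 * (2 * n + 1) * (2 * n + 3)) * (2 * n + 1) := by
            ring
        _ ≤ 4 ^ (2 * n) * (4 * (2 * n + 1) * (2 * n + 3)) * (2 * n + 1) := by gcongr
        _ ≤ 4 ^ (2 * n) * (16 * (n + 1) ^ 2) * (2 * n + 1) := by
            have h5 : 4 * (2 * n + 1) * (2 * n + 3) ≤ 16 * (n + 1) ^ 2 := by nlinarith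
            exact Nat.mul_le_mul_right _ (Nat.mul_le_mul_left _ h5)
        _ = (n + 1) ^ 2 * 4 ^ (2 * (n + 1)) * (2 * n + 1) := by
            rw [show 2 * (n + 1) = 2 * n + 2 by ring, pow_add]
            ring
    have h2 : (n + 1) ^ 2 * ((n + 1).centralBinom ^ 2 * (2 * (n + 1) + 1)) * (2 * n + 1) ≤
        (n + 1) ^ 2 * 4 ^ (2 * (n + 1)) * (2 * n + 1) := by
      refine le_trans (le_of_eq ?_) h1
      ring
    have h3 := Nat.le_of_mul_le_mul_right h2 (by omega)
    exact Nat.le_of_mul_le_mul_left h3 (by positivity)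

theorem choose_sq (j i : ℕ) : (j.choose i) ^ 2 * (j + 1) ≤ 4 ^ j := by
  have h0 : j.choose i ≤ j.choose (j / 2) := Nat.choose_le_middle i j
  refine le_trans (Nat.mul_le_mul_right _ (Nat.pow_le_pow_left h0 2)) ?_
  rcases Nat.even_or_odd' j with ⟨k, hk | hk⟩
  · subst hk
    rw [Nat.mul_div_cancel_left k (by norm_num)]
    exact centralBinom_sq k
  · subst hk
    have e1 : (2 * k + 1) / 2 = k := by omega
    rw [e1]
    have h1 := centralBinom_sq (k + 1)
    have h2 : (k + 1).centralBinom = 2 * (2 * k + 1).choose k := by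
      rw [Nat.centralBinom_eq_two_mul_choose, show 2 * (k + 1) = (2 * k + 1) + 1 by ring,
        Nat.choose_succ_succ]
      have h3 : (2 * k + 1).choose (k + 1) = (2 * k + 1).choose k := by
        rw [← Nat.choose_symm_of_eq_add (by omega : 2 * k + 1 = (k + 1) + k)]
      rw [h3]
      ring
    rw [h2] at h1
    have h4 : (4 : ℕ) ^ (2 * (k + 1)) = 4 * 4 ^ (2 * k + 1) := by
      rw [show 2 * (k + 1) = 2 * k + 1 + 1 by ring, pow_succ]
      ring
    rw [h4] at h1
    nlinarith

/-! ### adding bits -/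

/-- `∑ i, choose j i * F (t - i)` -/
def bits (F : ℤ → ℝ) : ℕ → ℤ → ℝ
  | 0, t => F t
  | j + 1, t => bits F j t + bits F j (t - 1)

theorem bits_sum {ι : Type*} (s : Finset ι) (G : ι → ℤ → ℝ) (j : ℕ) (t : ℤ) :
    bits (fun u => ∑ i ∈ s, G i u) j t = ∑ i ∈ s, bits (G i) j t := by
  induction j generalizing t with
  | zero => rfl
  | succ j ih =>
    show bits _ j t + bits _ j (t - 1) = ∑ i ∈ s, (bits (G i) j t + bits (G i) j (t - 1))
    rw [ih, ih, Finset.sum_add_distrib]

theorem bits_shift (F : ℤ → ℝ) (c : ℤ) (j : ℕ) (t : ℤ) :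
    bits (fun u => F (u - c)) j t = bits F j (t - c) := by
  induction j generalizing t with
  | zero => rfl
  | succ j ih =>
    show bits _ j t + bits _ j (t - 1) = bits F j (t - c) + bits F j (t - c - 1)
    rw [ih, ih, sub_right_comm]

theorem bits_delta (j : ℕ) (t : ℤ) :
    bits (fun u => if u = 0 then 1 else 0) j t = if 0 ≤ t then (j.choose t.toNat : ℝ) else 0 := by
  induction j generalizing t with
  | zero =>
    show (if t = 0 then (1 : ℝ) else 0) = _
    by_cases h : t = 0
    · subst h; simp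
    · rw [if_neg h]
      by_cases h2 : 0 ≤ t
      · rw [if_pos h2, Nat.choose_eq_zero_of_lt (by omega)]
        simp
      · rw [if_neg h2]
  | succ j ih =>
    show bits _ j t + bits _ j (t - 1) = _
    rw [ih, ih]
    by_cases h : 0 ≤ t
    · rw [if_pos h, if_pos h]
      by_cases h1 : 0 ≤ t - 1
      · rw [if_pos h1]
        have e : t.toNat = (t - 1).toNat + 1 := by omega
        rw [e, Nat.choose_succ_succ]
        push_cast
        ring
      · rw [if_neg h1]
        have e : t.toNat = 0 := by omega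
        rw [e]
        simp
    · rw [if_neg h, if_neg h, if_neg (by omega)]
      simp

theorem bits_delta_le (j : ℕ) (t : ℤ) :
    bits (fun u => if u = 0 then 1 else 0) j t ≤ 2 ^ j * (1 / √(j + 1)) := by
  rw [bits_delta]
  split_ifs with h
  · have h1 := choose_sq j t.toNat
    have h2 : ((j.choose t.toNat : ℝ)) ^ 2 * (j + 1) ≤ 4 ^ j := by exact_mod_cast h1
    have h3 : (0 : ℝ) < j + 1 := by positivity
    have h4 : (j.choose t.toNat : ℝ) * √(j + 1) ≤ 2 ^ j := by
      apply le_of_sq_le_sq _ (by positivity)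
      rw [mul_pow, Real.sq_sqrt h3.le]
      refine h2.trans (le_of_eq ?_)
      rw [← pow_mul, mul_comm j 2, pow_mul]
      norm_num
    rw [mul_one_div, le_div_iff₀ (Real.sqrt_pos.2 h3)]
    exact h4
  · positivity

/-- the elementary inequality -/
theorem psi_ineq (y p : ℝ) (hy : 1 ≤ y) (hp0 : 0 ≤ p) (hp : p ≤ 1) :
    p * (1 / √(y + 1)) + (1 - p) * (1 / √y) ≤ 1 / √(y + p / 3) := by
  have hy0 : 0 < y := by linarith
  have hs : 0 < √y := Real.sqrt_pos.2 hy0
  -- second inequality
  have h1 : 1 / √(y + 1) ≤ 1 / √y * (1 - 1 / (6 * y)) := by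
    have hw : 0 < 1 - 1 / (6 * y) := by
      rw [sub_pos, div_lt_one (by positivity)]
      linarith
    rw [div_le_iff₀ (Real.sqrt_pos.2 (by linarith)), mul_assoc, one_div_mul_eq_div,
      one_le_div hs]
    apply le_of_sq_le_sq _ (by positivity)
    rw [mul_pow, Real.sq_sqrt hy0.le, Real.sq_sqrt (by linarith)]
    have e : (1 - 1 / (6 * y)) ^ 2 * (y + 1) - y = (24 * y ^ 2 - 11 * y + 1) / (36 * y ^ 2) := by
      field_simp
      ring
    have : 0 ≤ (24 * y ^ 2 - 11 * y + 1) / (36 * y ^ 2) := by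
      apply div_nonneg _ (by positivity)
      nlinarith
    linarith
  have h2 : 1 / √y * (1 - p / (6 * y)) ≤ 1 / √(y + p / 3) := by
    have hyp : 0 < y + p / 3 := by positivity
    rw [le_div_iff₀ (Real.sqrt_pos.2 hyp), mul_assoc, one_div_mul_eq_div, div_le_one hs]
    have hw : 0 < 1 - p / (6 * y) := by
      rw [sub_pos, div_lt_one (by positivity)]
      linarith
    apply le_of_sq_le_sq _ hs.le
    rw [mul_pow, Real.sq_sqrt hy0.le, Real.sq_sqrt hyp.le]
    have e : y - (1 - p / (6 * y)) ^ 2 * (y + p / 3) =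
        p ^ 2 * (9 * y - p) / (108 * y ^ 2) := by
      field_simp
      ring
    have : 0 ≤ p ^ 2 * (9 * y - p) / (108 * y ^ 2) := by
      apply div_nonneg _ (by positivity)
      apply mul_nonneg (by positivity)
      linarith
    linarith
  calc p * (1 / √(y + 1)) + (1 - p) * (1 / √y)
      ≤ p * (1 / √y * (1 - 1 / (6 * y))) + (1 - p) * (1 / √y) := by
        have := mul_le_mul_of_nonneg_left h1 hp0
        linarith
    _ = 1 / √y * (1 - p / (6 * y)) := by
        field_simp
        ring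
    _ ≤ _ := h2

/-- anti-concentration with `j` additional bits -/
theorem bits_cnt_le (H : ℕ) (hH : 1 ≤ H) (M : ℕ) : ∀ (v : ℕ → ℤ), (∀ k, k < M → v k = 1 ∨ v k = -1) →
    ∀ (j : ℕ) (t : ℤ), bits (fun u => (cnt (bo H) M v u : ℝ)) j t ≤
      2 ^ j * (2 * H + 1) ^ M * (1 / √(j + 1 + 2 / (2 * H + 1) / 3 * M)) := by
  induction M with
  | zero =>
    intro v _ j t
    have e : (fun u => ((cnt (bo H) 0 v u : ℕ) : ℝ)) = fun u => if u = 0 then 1 else 0 := by
      funext u
      unfold cnt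
      split_ifs <;> simp
    rw [e]
    simpa using bits_delta_le j t
  | succ M ih =>
    intro v hv j t
    set F : ℤ → ℝ := fun u => (cnt (bo H) M (fun k => v (k + 1)) u : ℝ) with hF
    have e1 : (fun u => ((cnt (bo H) (M + 1) v u : ℕ) : ℝ)) = fun u => ∑ c ∈ bo H, F (u - c) := by
      funext u
      show ((∑ c ∈ bo H, cnt (bo H) M (fun k => v (k + 1)) (u - c * v 0) : ℕ) : ℝ) = _
      push_cast
      rcases hv 0 (by omega) with h | h
      · rw [h]
        simp only [mul_one]
        rfl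
      · rw [h]
        refine Finset.sum_bij' (fun c _ => -c) (fun c _ => -c) ?_ ?_ ?_ ?_ ?_
        · intro c hc
          unfold bo at hc ⊢
          rw [Finset.mem_Icc] at hc ⊢
          constructor <;> linarith
        · intro c hc
          unfold bo at hc ⊢
          rw [Finset.mem_Icc] at hc ⊢
          constructor <;> linarith
        · intro c _; exact neg_neg c
        · intro c _; exact neg_neg c
        · intro c _
          show _ = F (u - -c)
          rw [hF]
          congr 2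
          ring
    rw [e1, bits_sum]
    simp only [bits_shift]
    have hN : (0 : ℝ) < 2 * H + 1 := by positivity
    have ih' := ih (fun k => v (k + 1)) (fun k hk => hv _ (by omega))
    -- split off c = 0, 1
    have h0 : (0 : ℤ) ∈ bo H := by unfold bo; rw [Finset.mem_Icc]; omega
    have h1 : (1 : ℤ) ∈ (bo H).erase 0 := by
      rw [Finset.mem_erase]
      refine ⟨by norm_num, ?_⟩
      unfold bo; rw [Finset.mem_Icc]; omega
    rw [← Finset.add_sum_erase _ _ h0, ← Finset.add_sum_erase _ _ h1]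
    have hcard : (((bo H).erase 0).erase 1).card = 2 * H - 1 := by
      rw [Finset.card_erase_of_mem h1, Finset.card_erase_of_mem h0, card_bo]
      omega
    have h2 : bits F j (t - 0) + bits F j (t - 1) ≤
        2 ^ (j + 1) * (2 * H + 1) ^ M * (1 / √(((j + 1 : ℕ) : ℝ) + 1 + 2 / (2 * H + 1) / 3 * M)) := by
      rw [sub_zero]
      exact ih' (j + 1) t
    have h3 : ∑ c ∈ ((bo H).erase 0).erase 1, bits F j (t - c) ≤
        (2 * H - 1) * (2 ^ j * (2 * H + 1) ^ M * (1 / √(j + 1 + 2 / (2 * H + 1) / 3 * M))) := by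
      refine (Finset.sum_le_card_nsmul _ _ _ fun c _ => ih' j (t - c)).trans (le_of_eq ?_)
      rw [hcard, nsmul_eq_mul]
      congr 1
      rw [Nat.cast_sub (by omega)]
      push_cast
      ring
    have hp0 : (0 : ℝ) ≤ 2 / (2 * H + 1) := by positivity
    have hp1 : (2 : ℝ) / (2 * H + 1) ≤ 1 := by
      rw [div_le_one hN]
      have : (1 : ℝ) ≤ H := by exact_mod_cast hH
      linarith
    have hpsi := psi_ineq (j + 1 + 2 / (2 * H + 1) / 3 * M) (2 / (2 * H + 1))
      (by
        have : (0 : ℝ) ≤ 2 / (2 * H + 1) / 3 * M := by positivity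
        have : (0 : ℝ) ≤ (j : ℝ) := by positivity
        linarith) hp0 hp1
    have e2 : (((j + 1 : ℕ) : ℝ) + 1 + 2 / (2 * H + 1) / 3 * M) =
        (j + 1 + 2 / (2 * H + 1) / 3 * M) + 1 := by
      push_cast
      ring
    rw [e2] at h2
    have e3 : ((j : ℝ) + 1 + 2 / (2 * H + 1) / 3 * ((M + 1 : ℕ) : ℝ)) =
        (j + 1 + 2 / (2 * H + 1) / 3 * M) + 2 / (2 * H + 1) / 3 := by
      push_cast
      ring
    rw [e3]
    set a := 1 / √((j : ℝ) + 1 + 2 / (2 * H + 1) / 3 * M + 1)
    set b := 1 / √((j : ℝ) + 1 + 2 / (2 * H + 1) / 3 * M)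
    set c := 1 / √((j : ℝ) + 1 + 2 / (2 * H + 1) / 3 * M + 2 / (2 * H + 1) / 3)
    have h5 : 2 * a + (2 * H - 1) * b ≤ (2 * H + 1) * c := by
      have := mul_le_mul_of_nonneg_left hpsi hN.le
      have e4 : (2 * (H : ℝ) + 1) * (2 / (2 * H + 1) * a + (1 - 2 / (2 * H + 1)) * b) =
          2 * a + (2 * H - 1) * b := by
        field_simp
        ring
      linarith
    calc bits F j (t - 0) + (bits F j (t - 1) + ∑ c ∈ ((bo H).erase 0).erase 1, bits F j (t - c))
        ≤ 2 ^ (j + 1) * (2 * H + 1) ^ M * a + (2 * H - 1) * (2 ^ j * (2 * H + 1) ^ M * b) := by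
          linarith
      _ = 2 ^ j * (2 * H + 1) ^ M * (2 * a + (2 * H - 1) * b) := by ring
      _ ≤ 2 ^ j * (2 * H + 1) ^ M * ((2 * H + 1) * c) := by gcongr
      _ = 2 ^ j * (2 * H + 1) ^ (M + 1) * c := by ring

/-- the count with weights `± 1` is at most `(2 H + 1) ^ M` times `(3 / (2 M)) ^ (1 / 3)` -/
theorem cnt_unit (H : ℕ) (hH : 1 ≤ H) (M : ℕ) (v : ℕ → ℤ) (hv : ∀ k, k < M + 1 → v k = 1 ∨ v k = -1)
    (t : ℤ) : ((cnt (bo H) (M + 1) v t : ℝ) / (2 * H + 1) ^ (M + 1)) ^ 3 ≤ 3 / (2 * (M + 1)) := by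
  have hN : (0 : ℝ) < 2 * H + 1 := by positivity
  set q : ℝ := (cnt (bo H) (M + 1) v t : ℝ) / (2 * H + 1) ^ (M + 1) with hq
  have hq0 : 0 ≤ q := by positivity
  have h1 : q ≤ 1 / √(1 + 2 / (2 * H + 1) / 3 * (M + 1)) := by
    have := bits_cnt_le H hH (M + 1) v hv 0 t
    rw [hq, div_le_iff₀ (by positivity)]
    have e : bits (fun u => ((cnt (bo H) (M + 1) v u : ℕ) : ℝ)) 0 t = cnt (bo H) (M + 1) v t := rfl
    rw [e] at this
    push_cast at this
    rw [pow_zero, one_mul, zero_add] at this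
    linarith
  have h2 : q ≤ 1 / (2 * H + 1) := by
    rw [hq, div_le_iff₀ (by positivity), pow_succ]
    have e : 1 / (2 * (H : ℝ) + 1) * ((2 * H + 1) ^ M * (2 * H + 1)) = (2 * H + 1) ^ M := by
      field_simp
    rw [e]
    have h3 : cnt (bo H) (M + 1) v t ≤ (bo H).card ^ M := by
      have h4 : ∀ (M : ℕ) (v : ℕ → ℤ), (∀ k, k < M + 1 → v k = 1 ∨ v k = -1) → ∀ t,
          cnt (bo H) (M + 1) v t ≤ (bo H).card ^ M := by
        intro M
        induction M with
        | zero =>
          intro v hv t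
          show ∑ c ∈ bo H, cnt (bo H) 0 _ (t - c * v 0) ≤ _
          simp only [cnt, pow_zero]
          rw [← Finset.card_filter, Finset.card_le_one]
          intro a ha b hb
          rw [Finset.mem_filter] at ha hb
          have h5 : v 0 ≠ 0 := by
            rcases hv 0 (by omega) with h | h <;> rw [h] <;> norm_num
          have : a * v 0 = b * v 0 := by linarith [ha.2, hb.2]
          exact mul_right_cancel₀ h5 this
        | succ M ih =>
          intro v hv t
          show ∑ c ∈ bo H, cnt (bo H) (M + 1) (fun k => v (k + 1)) (t - c * v 0) ≤ _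
          refine (Finset.sum_le_card_nsmul _ _ _ fun c _ =>
            ih (fun k => v (k + 1)) (fun k hk => hv _ (by omega)) _).trans (le_of_eq ?_)
          rw [smul_eq_mul, pow_succ]
          ring
      exact h4 M v hv t
    have h5 : ((cnt (bo H) (M + 1) v t : ℕ) : ℝ) ≤ (((bo H).card ^ M : ℕ) : ℝ) := Nat.cast_le.2 h3
    rw [card_bo] at h5
    push_cast at h5
    exact h5
  have h3 : q ^ 2 ≤ 3 * (2 * H + 1) / (2 * (M + 1)) := by
    have h4 : 0 < 1 + 2 / (2 * (H : ℝ) + 1) / 3 * (M + 1) := by positivity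
    calc q ^ 2 ≤ (1 / √(1 + 2 / (2 * H + 1) / 3 * (M + 1))) ^ 2 := pow_le_pow_left₀ hq0 h1 2
      _ = 1 / (1 + 2 / (2 * H + 1) / 3 * (M + 1)) := by rw [div_pow, Real.sq_sqrt h4.le, one_pow]
      _ ≤ 1 / (2 / (2 * H + 1) / 3 * (M + 1)) := by
          apply one_div_le_one_div_of_le (by positivity)
          linarith
      _ = 3 * (2 * H + 1) / (2 * (M + 1)) := by field_simp
  have h4 : q ^ 3 = q ^ 2 * q := by ring
  have h5 : q ^ 2 * q ≤ (3 * (2 * (H : ℝ) + 1) / (2 * ((M : ℝ) + 1))) * (1 / (2 * H + 1)) :=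
    mul_le_mul h3 h2 hq0 (by positivity)
  have h6 : (3 * (2 * (H : ℝ) + 1) / (2 * ((M : ℝ) + 1))) * (1 / (2 * H + 1)) =
      3 / (2 * ((M : ℝ) + 1)) := by field_simp
  rw [h4]
  linarith

end Pool.Agent.Helper17.DA
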