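import Pool.Agent.Helper17.DA.Split

set_option autoImplicit false

/-! # Linear equations with weights `p ^ a r ^ (D - a)` -/

namespace Pool.Agent.Helper17.DA

open Finset

/-- the box `[-H, H]` -/
noncomputable def bo (H : ℕ) : Finset ℤ := Finset.Icc (-(H : ℤ)) H

theorem card_bo (H : ℕ) : (bo H).card = 2 * H + 1 := by
  unfold bo
  rw [Int.card_Icc]
  omega

/-- integers of the box in one residue class modulo `m` -/
theorem card_class (H m : ℕ) (hm : 1 ≤ m) (S : Finset ℤ) (hS : ∀ c ∈ S, c ∈ bo H)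
    (hd : ∀ c ∈ S, ∀ c' ∈ S, (m : ℤ) ∣ c - c') : S.card ≤ 2 * H / m + 1 := by
  have hm0 : (0 : ℤ) < m := by exact_mod_cast hm
  have h1 : S.card ≤ (Finset.Icc (0 : ℤ) ((2 * H / m : ℕ) : ℤ)).card := by
    refine Finset.card_le_card_of_injOn (fun c => (c + H) / m) ?_ ?_
    · intro c hc
      have h := hS c hc
      unfold bo at h
      rw [Finset.mem_Icc] at h
      rw [Finset.mem_coe, Finset.mem_Icc]
      refine ⟨Int.ediv_nonneg (by linarith) hm0.le, ?_⟩
      push_cast
      exact Int.ediv_le_ediv hm0 (by linarith)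
    · intro c hc c' hc' heq
      simp only at heq
      obtain ⟨k, hk⟩ := hd c hc c' hc'
      have h2 : c + H = c' + H + m * k := by linarith
      rw [h2, Int.add_mul_ediv_left _ _ hm0.ne'] at heq
      have : k = 0 := by linarith
      subst this
      linarith
  rw [Int.card_Icc] at h1
  refine h1.trans (le_of_eq ?_)
  rw [sub_zero, ← Nat.cast_one (R := ℤ), ← Nat.cast_add, Int.toNat_natCast]

/-- chain with a modulus -/
theorem cnt_chain (H m : ℕ) (hm : 1 ≤ m) (p r : ℤ) (hp : p ≠ 0) (hmp : (m : ℤ) ∣ p)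
    (hmr : IsCoprime (m : ℤ) r) (D : ℕ) : ∀ (k t : ℤ), k ≠ 0 →
    cnt (bo H) (D + 1) (fun a => k * p ^ a * r ^ (D - a)) t ≤ (2 * H / m + 1) ^ (D + 1) := by
  induction D with
  | zero =>
    intro k t hk
    show ∑ c ∈ bo H, cnt (bo H) 0 _ (t - c * (k * p ^ 0 * r ^ (0 - 0))) ≤ _
    simp only [pow_zero, mul_one, cnt, Nat.sub_self]
    have h1 : ∑ c ∈ bo H, (if t - c * k = 0 then 1 else 0) ≤ 1 := by
      rw [← Finset.card_filter]
      rw [Finset.card_le_one]
      intro a ha b hb
      rw [Finset.mem_filter] at ha hb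
      have : a * k = b * k := by linarith [ha.2, hb.2]
      exact mul_right_cancel₀ hk this
    refine h1.trans ?_
    rw [zero_add, pow_one]
    exact Nat.le_add_left _ _
  | succ D ih =>
    intro k t hk
    show ∑ c ∈ bo H, cnt (bo H) (D + 1) (fun a => k * p ^ (a + 1) * r ^ (D + 1 - (a + 1)))
      (t - c * (k * p ^ 0 * r ^ (D + 1 - 0))) ≤ _
    have e1 : (fun a => k * p ^ (a + 1) * r ^ (D + 1 - (a + 1))) =
        fun a => (k * p) * p ^ a * r ^ (D - a) := by
      funext a
      rw [Nat.add_sub_add_right, pow_succ]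
      ring
    rw [e1]
    have hkp : k * p ≠ 0 := mul_ne_zero hk hp
    classical
    set S := (bo H).filter (fun c => k * p ∣ t - c * (k * p ^ 0 * r ^ (D + 1 - 0))) with hSdef
    have h1 : ∑ c ∈ bo H, cnt (bo H) (D + 1) (fun a => (k * p) * p ^ a * r ^ (D - a))
        (t - c * (k * p ^ 0 * r ^ (D + 1 - 0))) =
        ∑ c ∈ S, cnt (bo H) (D + 1) (fun a => (k * p) * p ^ a * r ^ (D - a))
        (t - c * (k * p ^ 0 * r ^ (D + 1 - 0))) := by
      rw [hSdef, Finset.sum_filter_of_ne]
      intro c _ hc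
      by_contra hcon
      apply hc
      refine cnt_zero_of_not_dvd _ _ _ _ (k * p) (fun a _ => ?_) hcon
      rw [mul_assoc]
      exact dvd_mul_right _ _
    rw [h1]
    have h2 : S.card ≤ 2 * H / m + 1 := by
      refine card_class H m hm S (fun c hc => (Finset.mem_filter.1 hc).1) ?_
      intro c hc c' hc'
      have h3 := dvd_sub (Finset.mem_filter.1 hc').2 (Finset.mem_filter.1 hc).2
      have h4 : t - c' * (k * p ^ 0 * r ^ (D + 1 - 0)) - (t - c * (k * p ^ 0 * r ^ (D + 1 - 0))) =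
          k * ((c - c') * r ^ (D + 1)) := by
        simp only [pow_zero, mul_one, Nat.sub_zero]
        ring
      rw [h4] at h3
      have h5 := (mul_dvd_mul_iff_left hk).1 h3
      have h6 : (m : ℤ) ∣ (c - c') * r ^ (D + 1) := hmp.trans h5
      exact (hmr.pow_right).dvd_of_dvd_mul_right h6
    have h7 := Finset.sum_le_card_nsmul S (fun c => cnt (bo H) (D + 1)
      (fun a => (k * p) * p ^ a * r ^ (D - a)) (t - c * (k * p ^ 0 * r ^ (D + 1 - 0))))
      ((2 * H / m + 1) ^ (D + 1)) (fun c _ => ih _ _ hkp)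
    refine h7.trans ?_
    rw [smul_eq_mul, pow_succ (2 * H / m + 1) (D + 1), mul_comm]
    exact Nat.mul_le_mul_left _ h2

end Pool.Agent.Helper17.DA
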