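import Pool.Agent.Helper17.DA.Points

set_option autoImplicit false

/-! # Systems of forms and the coordinate points -/

namespace Pool.Agent.Helper17.DA

open Finset MvPolynomial Pool.Agent.R870.RC

variable {n s : ℕ}

/-- the indices of all the coefficients of a system of forms -/
abbrev Idx (n : ℕ) {s : ℕ} (d : Fin s → ℕ) := (l : Fin s) × ↥(Mo n (d l))

/-- the system with given coefficients -/
noncomputable def sysOf (d : Fin s → ℕ) (c : Idx n d → ℤ) (l : Fin s) :
    MvPolynomial (Fin (n + 1)) ℤ := Phi n (d l) (fun m => c ⟨l, m⟩)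

theorem Phi_coeff {d : ℕ} {F : MvPolynomial (Fin (n + 1)) ℤ} (hF : F.IsHomogeneous d) :
    Phi n d (fun m => F.coeff m.1) = F := by
  ext m
  rw [coeff_Phi]
  by_cases h : m ∈ Mo n d
  · rw [dif_pos h]
  · rw [dif_neg h]
    by_contra hne
    apply h
    rw [mem_Mo, Finsupp.degree_eq_weight_one]
    exact hF (Ne.symm hne)

open Classical in
theorem card_sys_filter (d : Fin s → ℕ) (H : ℕ)
    (P : (Fin s → MvPolynomial (Fin (n + 1)) ℤ) → Prop) [DecidablePred P]
    [DecidablePred (fun c : Idx n d → ℤ => P (sysOf d c))] :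
    ((Fintype.piFinset (fun l => FF n (d l) H)).filter P).card =
      ((Fintype.piFinset (fun _ : Idx n d => bo H)).filter (fun c => P (sysOf d c))).card := by
  symm
  refine Finset.card_bij' (fun c _ => sysOf d c) (fun F _ x => (F x.1).coeff x.2.1) ?_ ?_ ?_ ?_
  · intro c hc
    rw [Finset.mem_filter, Fintype.mem_piFinset] at hc
    rw [Finset.mem_filter, Fintype.mem_piFinset]
    refine ⟨fun l => ?_, hc.2⟩
    rw [mem_FF]
    refine ⟨Phi_hom _, fun m => ?_⟩
    unfold sysOf
    rw [coeff_Phi]
    by_cases h : m ∈ Mo n (d l)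
    · rw [dif_pos h]
      have := hc.1 ⟨l, ⟨m, h⟩⟩
      unfold bo at this
      rw [Finset.mem_Icc, ← abs_le] at this
      exact this
    · rw [dif_neg h, abs_zero]
      exact Nat.cast_nonneg H
  · intro F hF
    rw [Finset.mem_filter, Fintype.mem_piFinset] at hF
    have h1 : sysOf d (fun x : Idx n d => (F x.1).coeff x.2.1) = F := by
      funext l
      exact Phi_coeff ((mem_FF _).1 (hF.1 l)).1
    rw [Finset.mem_filter, Fintype.mem_piFinset]
    refine ⟨fun x => ?_, ?_⟩
    · unfold bo
      rw [Finset.mem_Icc, ← abs_le]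
      exact ((mem_FF _).1 (hF.1 x.1)).2 _
    · rw [h1]
      exact hF.2
  · intro c _
    funext x
    obtain ⟨l, m⟩ := x
    show (Phi n (d l) (fun m => c ⟨l, m⟩)).coeff m.1 = _
    rw [coeff_Phi, dif_pos m.2]
  · intro F hF
    rw [Finset.mem_filter, Fintype.mem_piFinset] at hF
    funext l
    exact Phi_coeff ((mem_FF _).1 (hF.1 l)).1

/-- the index of the coefficient of `x_i ^ (d_l)` in the `l`-th form -/
noncomputable def top (d : Fin s → ℕ) (I : Finset (Fin (n + 1))) (p : ↥I × Fin s) : Idx n d :=
  ⟨p.2, ⟨Finsupp.single p.1.1 (d p.2), by rw [mem_Mo, Finsupp.degree_single]⟩⟩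

theorem top_inj (d : Fin s → ℕ) (hd : ∀ l, 1 ≤ d l) (I : Finset (Fin (n + 1))) :
    Function.Injective (top d I) := by
  rintro ⟨i, l⟩ ⟨i', l'⟩ h
  unfold top at h
  rw [Sigma.mk.injEq] at h
  obtain ⟨h1, h2⟩ := h
  simp only at h1
  subst h1
  rw [heq_iff_eq, Subtype.mk.injEq] at h2
  simp only at h2
  have h3 := Finsupp.single_left_injective (by have := hd l; omega) h2
  rw [Prod.mk.injEq]
  exact ⟨Subtype.ext h3, rfl⟩

open Classical in
/-- the number of `a : I → Fin s → [-H, H]` with prescribed zero blocks -/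
theorem card_pattern (H : ℕ) (I S : Finset (Fin (n + 1))) (hS : S ⊆ I) :
    ((Fintype.piFinset (fun _ : ↥I × Fin s => bo H)).filter
      (fun a => ∀ i : ↥I, (i.1 ∈ S ↔ ∀ l, a (i, l) = 0))).card =
      ((2 * H + 1) ^ s - 1) ^ (I.card - S.card) := by
  have h1 : ((Fintype.piFinset (fun _ : ↥I × Fin s => bo H)).filter
      (fun a => ∀ i : ↥I, (i.1 ∈ S ↔ ∀ l, a (i, l) = 0))).card =
      (Fintype.piFinset (fun i : ↥I => (Fintype.piFinset (fun _ : Fin s => bo H)).filter
        (fun b => (i.1 ∈ S ↔ ∀ l, b l = 0)))).card := by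
    refine Finset.card_bij' (fun a _ i l => a (i, l)) (fun b _ p => b p.1 p.2) ?_ ?_ ?_ ?_
    · intro a ha
      rw [Finset.mem_filter, Fintype.mem_piFinset] at ha
      rw [Fintype.mem_piFinset]
      intro i
      rw [Finset.mem_filter, Fintype.mem_piFinset]
      exact ⟨fun l => ha.1 _, ha.2 i⟩
    · intro b hb
      rw [Fintype.mem_piFinset] at hb
      rw [Finset.mem_filter, Fintype.mem_piFinset]
      refine ⟨fun p => ?_, fun i => ?_⟩
      · have := hb p.1
        rw [Finset.mem_filter, Fintype.mem_piFinset] at this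
        exact this.1 _
      · have := hb i
        rw [Finset.mem_filter] at this
        exact this.2
    · intro a _; rfl
    · intro b _; rfl
  rw [h1, Fintype.card_piFinset]
  have hzero : (0 : Fin s → ℤ) ∈ Fintype.piFinset (fun _ : Fin s => bo H) := by
    rw [Fintype.mem_piFinset]
    intro l
    unfold bo
    rw [Finset.mem_Icc]
    simp
  have hbox : (Fintype.piFinset (fun _ : Fin s => bo H)).card = (2 * H + 1) ^ s := by
    rw [Fintype.card_piFinset, Finset.prod_const, card_bo, Finset.card_univ, Fintype.card_fin]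
  have h2 : ∀ i : ↥I, ((Fintype.piFinset (fun _ : Fin s => bo H)).filter
        (fun b => (i.1 ∈ S ↔ ∀ l, b l = 0))).card =
        if i.1 ∈ S then 1 else (2 * H + 1) ^ s - 1 := by
    intro i
    by_cases hi : i.1 ∈ S
    · rw [if_pos hi, Finset.card_eq_one]
      refine ⟨0, ?_⟩
      ext b
      rw [Finset.mem_filter, Finset.mem_singleton]
      constructor
      · rintro ⟨_, h⟩
        funext l
        exact (h.1 hi) l
      · rintro rfl
        exact ⟨hzero, by simp [hi]⟩
    · rw [if_neg hi]
      have h3 : (Fintype.piFinset (fun _ : Fin s => bo H)).filter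
        (fun b => (i.1 ∈ S ↔ ∀ l, b l = 0)) = (Fintype.piFinset (fun _ : Fin s => bo H)).erase 0 := by
        ext b
        rw [Finset.mem_filter, Finset.mem_erase]
        constructor
        · rintro ⟨h4, h5⟩
          refine ⟨?_, h4⟩
          rintro rfl
          exact hi (h5.2 fun l => rfl)
        · rintro ⟨h4, h5⟩
          refine ⟨h5, ?_⟩
          constructor
          · intro h; exact absurd h hi
          · intro h
            exfalso
            apply h4
            funext l
            exact h l
      rw [h3, Finset.card_erase_of_mem hzero, hbox]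
  simp only [h2]
  rw [Finset.prod_coe_sort I (fun i => if i ∈ S then 1 else (2 * H + 1) ^ s - 1),
    Finset.prod_ite, Finset.prod_const_one, one_mul, Finset.prod_const]
  congr 1
  have h6 : I.filter (fun i => ¬ i ∈ S) = I \ S := by
    ext i
    rw [Finset.mem_filter, Finset.mem_sdiff]
  rw [h6, Finset.card_sdiff_of_subset hS]

open Classical in
/-- exact count of the systems with a prescribed set of zeros among the coordinate points -/
theorem card_coord (d : Fin s → ℕ) (hd : ∀ l, 1 ≤ d l) (H : ℕ) (I S : Finset (Fin (n + 1)))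
    (hS : S ⊆ I) :
    ((Fintype.piFinset (fun l => FF n (d l) H)).filter (fun F => ∀ i ∈ I,
      (i ∈ S ↔ ∀ l, (F l).coeff (Finsupp.single i (d l)) = 0))).card *
        (2 * H + 1) ^ (I.card * s) =
      ((2 * H + 1) ^ s - 1) ^ (I.card - S.card) *
        (Fintype.piFinset (fun l => FF n (d l) H)).card := by
  have hall : (Fintype.piFinset (fun l => FF n (d l) H)).card =
      (2 * H + 1) ^ Fintype.card (Idx n d) := by
    have h := card_sys_filter (n := n) d H (fun _ => True)
    rw [Finset.filter_true, Finset.filter_true] at h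
    rw [h, Fintype.card_piFinset, Finset.prod_const, card_bo, Finset.card_univ]
  rw [hall, card_sys_filter, card_split (top d I) (top_inj d hd I)]
  have h1 : ∀ r : ↥(Set.range (top d I))ᶜ → ℤ,
      ((Fintype.piFinset (fun _ : ↥I × Fin s => bo H)).filter
        (fun a => ∀ i ∈ I, (i ∈ S ↔ ∀ l,
          (sysOf d (glu (top d I) (top_inj d hd I) a r) l).coeff (Finsupp.single i (d l)) = 0))).card =
      ((2 * H + 1) ^ s - 1) ^ (I.card - S.card) := by
    intro r
    rw [← card_pattern (s := s) H I S hS]
    congr 1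
    refine Finset.filter_congr fun a _ => ?_
    have h2 : ∀ (i : ↥I) (l : Fin s), (sysOf d (glu (top d I) (top_inj d hd I) a r) l).coeff
        (Finsupp.single i.1 (d l)) = a (i, l) := by
      intro i l
      unfold sysOf
      rw [coeff_Phi, dif_pos (by rw [mem_Mo, Finsupp.degree_single])]
      exact glu_inl (top d I) (top_inj d hd I) a r (i, l)
    constructor
    · intro h i
      have := h i.1 i.2
      simpa only [h2] using this
    · intro h i hi
      have := h ⟨i, hi⟩
      have h3 := h2 ⟨i, hi⟩
      simp only at h3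
      simpa only [h3] using this
  rw [Finset.sum_congr rfl fun r _ => h1 r, Finset.sum_const, smul_eq_mul]
  have h4 := card_rest (top d I) (top_inj d hd I) (bo H)
  rw [card_bo, Fintype.card_prod, Fintype.card_coe, Fintype.card_fin] at h4
  rw [← h4]
  ring

end Pool.Agent.Helper17.DA
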