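import Mathlib

set_option autoImplicit false

/-! # A large divisor of one coordinate prime to another one -/

namespace Pool.Agent.Helper17.DA

open Finset

/-- the part of `a` prime to `b` -/
def cop (a b : ℕ) : ℕ := a / Nat.gcd a (b ^ a)

theorem cop_dvd (a b : ℕ) : cop a b ∣ a := Nat.div_dvd_of_dvd (Nat.gcd_dvd_left _ _)

theorem cop_mul (a b : ℕ) : Nat.gcd a (b ^ a) * cop a b = a :=
  Nat.mul_div_cancel' (Nat.gcd_dvd_left _ _)

theorem cop_coprime (a b : ℕ) (ha : a ≠ 0) : Nat.Coprime (cop a b) b := by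
  by_contra hcon
  obtain ⟨q, hq, h1, h2⟩ := Nat.Prime.not_coprime_iff_dvd.1 hcon
  set k := a.factorization q with hk
  have hka : q ^ k ∣ a := Nat.ordProj_dvd a q
  have hkl : k ≤ a := (Nat.factorization_lt q ha).le
  have h3 : q ^ k ∣ b ^ a := (pow_dvd_pow_of_dvd h2 k).trans (pow_dvd_pow b hkl)
  have h4 : q ^ k ∣ Nat.gcd a (b ^ a) := Nat.dvd_gcd hka h3
  have h5 : q ^ k * q ∣ a := by
    have := mul_dvd_mul h4 h1
    rwa [cop_mul] at this
  rw [← pow_succ] at h5
  exact Nat.pow_succ_factorization_not_dvd ha hq h5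

theorem pow_dvd_cop (a b q k : ℕ) (hq : q.Prime) (hb : ¬ q ∣ b) (h : q ^ k ∣ a) :
    q ^ k ∣ cop a b := by
  have h1 : Nat.Coprime (q ^ k) (Nat.gcd a (b ^ a)) := by
    have h2 : Nat.Coprime (q ^ k) (b ^ a) := Nat.Coprime.pow k a ((Nat.Prime.coprime_iff_not_dvd hq).2 hb)
    exact Nat.Coprime.coprime_dvd_right (Nat.gcd_dvd_right _ _) h2
  rw [← cop_mul a b] at h
  exact h1.dvd_of_dvd_mul_left h

theorem exists_mod {n : ℕ} (x : Fin (n + 1) → ℤ) (i : Fin (n + 1)) (h2 : 2 ≤ (x i).natAbs)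
    (hprim : Finset.univ.gcd x = 1) :
    ∃ j, j ≠ i ∧ ∃ m : ℕ, 2 ≤ m ∧ (m : ℤ) ∣ x i ∧ IsCoprime (m : ℤ) (x j) ∧ (x i).natAbs ≤ m ^ n := by
  classical
  set a := (x i).natAbs with ha
  have ha0 : a ≠ 0 := by omega
  -- `a` divides the product
  have hdvd : a ∣ ∏ j ∈ Finset.univ.erase i, cop a (x j).natAbs := by
    rw [Nat.dvd_iff_prime_pow_dvd_dvd]
    intro q k hq hqk
    rcases Nat.eq_zero_or_pos k with hk | hk
    · subst hk; simp
    have hqa : q ∣ a := (dvd_pow_self q hk.ne').trans hqk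
    obtain ⟨j, hj⟩ : ∃ j, ¬ q ∣ (x j).natAbs := by
      by_contra hcon
      push Not at hcon
      have h3 : (q : ℤ) ∣ Finset.univ.gcd x :=
        Finset.dvd_gcd fun j _ => Int.natCast_dvd.2 (hcon j)
      rw [hprim] at h3
      have h4 := Int.natCast_dvd_natCast.1 (by simpa using h3 : (q : ℤ) ∣ ((1 : ℕ) : ℤ))
      exact hq.one_lt.ne' (Nat.dvd_one.1 h4)
    have hji : j ≠ i := by
      rintro rfl
      exact hj hqa
    exact (pow_dvd_cop a _ q k hq hj hqk).trans
      (Finset.dvd_prod_of_mem _ (Finset.mem_erase.2 ⟨hji, Finset.mem_univ j⟩))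
  have hpos : ∀ j, 0 < cop a (x j).natAbs := fun j =>
    Nat.pos_of_dvd_of_pos (cop_dvd _ _) (by omega)
  have hle : a ≤ ∏ j ∈ Finset.univ.erase i, cop a (x j).natAbs :=
    Nat.le_of_dvd (Finset.prod_pos fun j _ => hpos j) hdvd
  have hcard : (Finset.univ.erase i : Finset (Fin (n + 1))).card = n := by
    rw [Finset.card_erase_of_mem (Finset.mem_univ i), Finset.card_univ, Fintype.card_fin]
    rfl
  have hne : (Finset.univ.erase i : Finset (Fin (n + 1))).Nonempty := by
    rw [Finset.nonempty_iff_ne_empty]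
    intro he
    rw [he, Finset.prod_empty] at hle
    omega
  obtain ⟨j, hj, hmax⟩ := Finset.exists_max_image _ (fun j => cop a (x j).natAbs) hne
  refine ⟨j, (Finset.mem_erase.1 hj).1, cop a (x j).natAbs, ?_, ?_, ?_, ?_⟩
  · by_contra hlt
    push Not at hlt
    have h5 : ∏ j ∈ Finset.univ.erase i, cop a (x j).natAbs ≤ 1 := by
      refine Finset.prod_le_one (fun _ _ => Nat.zero_le _) fun k hk => ?_
      have := hmax k hk
      omega
    omega
  · exact Int.natCast_dvd.2 (cop_dvd _ _)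
  · have h6 := cop_coprime a (x j).natAbs ha0
    rw [Int.isCoprime_iff_gcd_eq_one, Int.gcd_eq_natAbs, Int.natAbs_natCast]
    exact h6
  · refine hle.trans ?_
    have h7 := Finset.prod_le_pow_card (Finset.univ.erase i) (fun j => cop a (x j).natAbs)
      (cop a (x j).natAbs) hmax
    rwa [hcard] at h7

end Pool.Agent.Helper17.DA
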