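import Pool.Agent.Helper17.DA.Main

set_option autoImplicit false

/-! # Rational points of varieties of large degree: the final statements -/

namespace Pool.Agent.Helper17.DA

open Finset MvPolynomial Pool.Agent.R870.RC Pool.Agent.Helper17.RV

variable {n s : ℕ}

/-- the systems `F = (F_1, …, F_s)` of integral forms of degrees `d_1, …, d_s` with coefficients of
absolute value at most `H` for which `V ∩ {F_1 = ⋯ = F_s = 0}` has a rational point of height at
most `B` that is not one of the `n + 1` coordinate points -/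
def OtherPoint (E : Set (MvPolynomial (Fin (n + 1)) ℚ)) (d : Fin s → ℕ) (H B : ℕ) :
    Set (Fin s → MvPolynomial (Fin (n + 1)) ℤ) :=
  {F | F ∈ Systems n d H ∧ ∃ x ∈ Zeros E F B, x ∉ coordPts Finset.univ}

/-- the systems `F = (F_1, …, F_s)` of integral forms of degrees `d_1, …, d_s` with coefficients of
absolute value at most `H` for which the rational points of height at most `B` of
`V ∩ {F_1 = ⋯ = F_s = 0}` are exactly the coordinate points with index in `S` -/
def ExactPoints (E : Set (MvPolynomial (Fin (n + 1)) ℚ)) (d : Fin s → ℕ) (H B : ℕ)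
    (S : Finset (Fin (n + 1))) : Set (Fin s → MvPolynomial (Fin (n + 1)) ℤ) :=
  {F | F ∈ Systems n d H ∧ Zeros E F B = coordPts S}

theorem systems_SF (d : Fin s → ℕ) (H : ℕ) : Systems n d H = ↑(SF n d H) := by
  ext F
  rw [Finset.mem_coe, mem_SF]

theorem single_inj {i i' : Fin (n + 1)} {e e' : ℤ} (he : e ≠ 0)
    (h : (Pi.single i e : Fin (n + 1) → ℤ) = Pi.single i' e') : i = i' := by
  by_contra hne
  have h1 := congrFun h i
  rw [Pi.single_eq_same, Pi.single_eq_of_ne hne] at h1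
  exact he h1

theorem single_mem_zeros {E : Set (MvPolynomial (Fin (n + 1)) ℚ)}
    (hE : ∀ P ∈ E, ∃ e, P.IsHomogeneous e) {d : Fin s → ℕ} {H B : ℕ} (hB : 1 ≤ B)
    {F : Fin s → MvPolynomial (Fin (n + 1)) ℤ} (hF : F ∈ Systems n d H) (i : Fin (n + 1))
    (hi : InVar E (Pi.single i 1)) (h0 : ∀ l, (F l).coeff (Finsupp.single i (d l)) = 0)
    (x : Fin (n + 1) → ℤ) (hx : x = Pi.single i 1 ∨ x = Pi.single i (-1)) : x ∈ Zeros E F B := by
  have hev : ∀ l, eval (Pi.single i 1) (F l) = 0 := fun l => by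
    rw [eval_coord (hF l).1, h0 l]
  have hB' : (1 : ℤ) ≤ B := by exact_mod_cast hB
  rcases hx with rfl | rfl
  · refine ⟨⟨gcd_single i 1 (Or.inl rfl), hi⟩, fun k => ?_, hev⟩
    by_cases hk : k = i
    · subst hk; rw [Pi.single_eq_same, abs_one]; exact hB'
    · rw [Pi.single_eq_of_ne hk, abs_zero]; omega
  · refine ⟨⟨gcd_single i (-1) (Or.inr rfl), ?_⟩, fun k => ?_, fun l => ?_⟩
    · exact inVar_scale E hE (-1) (by norm_num) (Pi.single i 1) _ (single_scale' i) hi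
    · by_cases hk : k = i
      · subst hk; rw [Pi.single_eq_same, abs_neg, abs_one]; exact hB'
      · rw [Pi.single_eq_of_ne hk, abs_zero]; omega
    · exact (eval_coord_neg (hF l) i).2 (hev l)

theorem zeros_single {E : Set (MvPolynomial (Fin (n + 1)) ℚ)}
    (hE : ∀ P ∈ E, ∃ e, P.IsHomogeneous e) {d : Fin s → ℕ} {H B : ℕ}
    {F : Fin s → MvPolynomial (Fin (n + 1)) ℤ} (hF : F ∈ Systems n d H) (i : Fin (n + 1))
    (x : Fin (n + 1) → ℤ) (hx : x = Pi.single i 1 ∨ x = Pi.single i (-1)) (hz : x ∈ Zeros E F B) :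
    InVar E (Pi.single i 1) ∧ ∀ l, (F l).coeff (Finsupp.single i (d l)) = 0 := by
  rcases hx with rfl | rfl
  · refine ⟨hz.1.2, fun l => ?_⟩
    rw [← eval_coord (hF l).1]
    exact hz.2.2 l
  · refine ⟨inVar_scale E hE (-1) (by norm_num) (Pi.single i (-1)) _ (single_scale i) hz.1.2,
      fun l => ?_⟩
    rw [← eval_coord (hF l).1]
    exact (eval_coord_neg (hF l) i).1 (hz.2.2 l)

theorem no_bad_zero (E : Set (MvPolynomial (Fin (0 + 1)) ℚ)) (B : ℕ)
    (F : Fin s → MvPolynomial (Fin (0 + 1)) ℤ) : ¬ IsBad E B F := by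
  intro h
  obtain ⟨x, _, i, j, hij, _⟩ := bad_two h
  exact hij (Fin.ext (by omega))

/-- the value of `del` -/
theorem del_eq (D : ℕ) : del D = ((D : ℝ) + 1) ^ (-(1 / 3) : ℝ) := rfl

open Classical in
theorem other_le (m : ℕ) (E : Set (MvPolynomial (Fin (n + 1)) ℚ))
    (hdim : Algebra.trdeg ℚ (MvPolynomial (Fin (n + 1)) ℚ ⧸ Ideal.span E) = m + 1) :
    ∃ C : ℝ, 0 < C ∧ ∀ (s : ℕ) (d : Fin s → ℕ) (j : Fin s) (H B : ℕ), 1 ≤ H → 1 ≤ B →
      (((SF n d H).filter (fun F => IsBad E B F)).card : ℝ) / ((SF n d H).card : ℝ) ≤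
        C * (del (d j) + (B : ℝ) ^ (m + 1) / (2 * H + 1) ^ (d j + 1)) := by
  rcases Nat.eq_zero_or_pos n with rfl | hn
  · refine ⟨1, one_pos, fun s d j H B hH hB => ?_⟩
    have h1 : (SF 0 d H).filter (fun F => IsBad E B F) = ∅ :=
      Finset.filter_eq_empty_iff.2 fun F _ => no_bad_zero E B F
    rw [h1, Finset.card_empty, Nat.cast_zero, zero_div, one_mul]
    have h2 : (0 : ℝ) ≤ (B : ℝ) ^ (m + 1) / (2 * H + 1) ^ (d j + 1) := by positivity
    exact add_nonneg (del_pos _).le h2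
  · obtain ⟨A, hA0, hA⟩ := count1 E hdim
    have hA' : ∀ T : ℕ, 1 ≤ T → ∀ S : Finset (Fin (n + 1) → ℤ),
      (∀ x ∈ S, (∀ i, |x i| ≤ T) ∧ InVar E x) → (S.card : ℝ) ≤ A * (T : ℝ) ^ (m + 1) := by
      intro T hT S hS
      have h1 := hA T hT S hS
      have h3 : ((m : ℝ) + 1) = ((m + 1 : ℕ) : ℝ) := by push_cast; rfl
      rwa [h3, Real.rpow_natCast] at h1
    refine ⟨2 * 3 ^ (n + 1) + A + 6 ^ (n + 3) * (2 * n) + 2 * n * (n + 4), by positivity,
      fun s d j H B hH hB => bad_le hn E A m hA0 hA' d j H B hH hB⟩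

open Classical in
/-- exact formula for the proportion in `card_coord` -/
theorem coord_ratio (d : Fin s → ℕ) (hd : ∀ l, 1 ≤ d l) (H : ℕ) (I S : Finset (Fin (n + 1)))
    (hS : S ⊆ I) :
    (((SF n d H).filter (fun F => ∀ i ∈ I,
      (i ∈ S ↔ ∀ l, (F l).coeff (Finsupp.single i (d l)) = 0))).card : ℝ) / ((SF n d H).card : ℝ) =
      (1 / (2 * H + 1) ^ s) ^ S.card * (1 - 1 / (2 * H + 1) ^ s) ^ (I.card - S.card) := by
  have h1 := card_coord (n := n) d hd H I S hS
  have hpos := SF_pos (n := n) d H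
  have hq : (0 : ℝ) < (2 * (H : ℝ) + 1) ^ s := by positivity
  set Q : ℝ := (2 * (H : ℝ) + 1) ^ s with hQ
  have h2 : (((SF n d H).filter (fun F => ∀ i ∈ I,
      (i ∈ S ↔ ∀ l, (F l).coeff (Finsupp.single i (d l)) = 0))).card : ℝ) * Q ^ I.card =
      (Q - 1) ^ (I.card - S.card) * ((SF n d H).card : ℝ) := by
    have h3 : ((((Fintype.piFinset (fun l => FF n (d l) H)).filter (fun F => ∀ i ∈ I,
      (i ∈ S ↔ ∀ l, (F l).coeff (Finsupp.single i (d l)) = 0))).card *
        (2 * H + 1) ^ (I.card * s) : ℕ) : ℝ) =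
      ((((2 * H + 1) ^ s - 1) ^ (I.card - S.card) *
        (Fintype.piFinset (fun l => FF n (d l) H)).card : ℕ) : ℝ) := by exact_mod_cast h1
    have h4 : 1 ≤ (2 * H + 1) ^ s := Nat.one_le_pow _ _ (by omega)
    rw [Nat.cast_mul, Nat.cast_mul, Nat.cast_pow, Nat.cast_pow (((2 * H + 1) ^ s - 1)),
      Nat.cast_sub h4, Nat.cast_pow (2 * H + 1) s, mul_comm I.card s, pow_mul] at h3
    push_cast at h3
    exact h3
  have h5 : I.card = (I.card - S.card) + S.card := (Nat.sub_add_cancel (Finset.card_le_card hS)).symm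
  rw [div_eq_iff hpos.ne']
  have h6 : Q ^ I.card ≠ 0 := (pow_pos hq _).ne'
  refine mul_right_cancel₀ h6 (h2.trans ?_)
  have h7 : (1 - 1 / Q) * Q = Q - 1 := by
    rw [sub_mul, one_mul, div_mul_cancel₀ _ hq.ne']
  have h8 : Q ^ I.card = Q ^ (I.card - S.card) * Q ^ S.card := by rw [← pow_add, ← h5]
  have h9 : (1 / Q) ^ S.card * Q ^ S.card = 1 := by
    rw [← mul_pow, div_mul_cancel₀ _ hq.ne', one_pow]
  have h10 : (1 - 1 / Q) ^ (I.card - S.card) * Q ^ (I.card - S.card) =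
      (Q - 1) ^ (I.card - S.card) := by
    rw [← mul_pow, h7]
  rw [h8, ← h10]
  generalize (1 - 1 / Q) ^ (I.card - S.card) = a
  generalize Q ^ (I.card - S.card) = b
  have h11 : (1 / Q) ^ S.card * a * ((SF n d H).card : ℝ) * (b * Q ^ S.card) =
      ((1 / Q) ^ S.card * Q ^ S.card) * (a * b * ((SF n d H).card : ℝ)) := by ring
  rw [h11, h9, one_mul]

open Classical in
theorem exact_le (E : Set (MvPolynomial (Fin (n + 1)) ℚ)) (hE : ∀ P ∈ E, ∃ e, P.IsHomogeneous e)
    (d : Fin s → ℕ) (hd : ∀ l, 1 ≤ d l) (H B : ℕ) (hB : 1 ≤ B) (I S : Finset (Fin (n + 1)))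
    (hI : ∀ i, i ∈ I ↔ InVar E (Pi.single i 1)) (hS : S ⊆ I) (ε : ℝ)
    (hbad : (((SF n d H).filter (fun F => IsBad E B F)).card : ℝ) / ((SF n d H).card : ℝ) ≤ ε) :
    |(((SF n d H).filter (fun F => Zeros E F B = coordPts S)).card : ℝ) / ((SF n d H).card : ℝ) -
      (1 / (2 * H + 1) ^ s) ^ S.card * (1 - 1 / (2 * H + 1) ^ s) ^ (I.card - S.card)| ≤ ε := by
  have hpos := SF_pos (n := n) d H
  rw [← coord_ratio d hd H I S hS, ← sub_div, abs_div, abs_of_pos hpos]
  set A := (SF n d H).filter (fun F => Zeros E F B = coordPts S) with hA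
  set A' := (SF n d H).filter (fun F => ∀ i ∈ I,
      (i ∈ S ↔ ∀ l, (F l).coeff (Finsupp.single i (d l)) = 0)) with hA'
  set Bd := (SF n d H).filter (fun F => IsBad E B F) with hBd
  have h1 : A ⊆ A' := by
    intro F hF
    rw [hA, Finset.mem_filter] at hF
    rw [hA', Finset.mem_filter]
    refine ⟨hF.1, fun i hi => ⟨fun hiS => ?_, fun h0 => ?_⟩⟩
    · have h2 : (Pi.single i 1 : Fin (n + 1) → ℤ) ∈ Zeros E F B := by
        rw [hF.2]
        exact ⟨i, hiS, Or.inl rfl⟩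
      exact (zeros_single hE (mem_SF.1 hF.1) i _ (Or.inl rfl) h2).2
    · have h2 := single_mem_zeros hE hB (mem_SF.1 hF.1) i ((hI i).1 hi) h0
        (Pi.single i 1) (Or.inl rfl)
      rw [hF.2] at h2
      obtain ⟨i', hi', h3 | h3⟩ := h2
      · rw [single_inj one_ne_zero h3]; exact hi'
      · rw [single_inj one_ne_zero h3]; exact hi'
  have h2 : A' ⊆ A ∪ Bd := by
    intro F hF
    rw [hA', Finset.mem_filter] at hF
    rw [Finset.mem_union]
    by_cases hb : IsBad E B F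
    · right
      rw [hBd, Finset.mem_filter]
      exact ⟨hF.1, hb⟩
    · left
      rw [hA, Finset.mem_filter]
      refine ⟨hF.1, Set.Subset.antisymm ?_ ?_⟩
      · intro x hx
        by_cases hc : x ∈ coordPts (n := n) Finset.univ
        · obtain ⟨i, _, hxi⟩ := hc
          have h3 := zeros_single hE (mem_SF.1 hF.1) i x hxi hx
          exact ⟨i, (hF.2 i ((hI i).2 h3.1)).2 h3.2, hxi⟩
        · exact absurd ⟨x, hx, hc⟩ hb
      · rintro x ⟨i, hi, hxi⟩
        exact single_mem_zeros hE hB (mem_SF.1 hF.1) i ((hI i).1 (hS hi))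
          ((hF.2 i (hS hi)).1 hi) x hxi
  have h3 : (A.card : ℝ) ≤ A'.card := by exact_mod_cast Finset.card_le_card h1
  have h4 : (A'.card : ℝ) ≤ A.card + Bd.card := by
    exact_mod_cast (Finset.card_le_card h2).trans (Finset.card_union_le _ _)
  refine le_trans (div_le_div_of_nonneg_right ?_ hpos.le) hbad
  rw [abs_le]
  constructor <;> linarith

/-- the final statement -/
theorem degree_aspect (n m : ℕ) (E : Set (MvPolynomial (Fin (n + 1)) ℚ))
    (hE : ∀ P ∈ E, ∃ e, P.IsHomogeneous e)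
    (hdim : Algebra.trdeg ℚ (MvPolynomial (Fin (n + 1)) ℚ ⧸ Ideal.span E) = m + 1) :
    ∃ C : ℝ, 0 < C ∧ ∀ (s : ℕ) (d : Fin s → ℕ) (j : Fin s) (H B : ℕ),
      (∀ l, 1 ≤ d l) → 1 ≤ H → 1 ≤ B →
      ((OtherPoint E d H B).ncard : ℝ) / ((Systems n d H).ncard : ℝ) ≤
        C * (((d j : ℝ) + 1) ^ (-(1 / 3) : ℝ) + (B : ℝ) ^ (m + 1) / (2 * H + 1) ^ (d j + 1)) ∧
      ∀ I S : Finset (Fin (n + 1)), (∀ i, i ∈ I ↔ InVar E (Pi.single i 1)) → S ⊆ I →
        |((ExactPoints E d H B S).ncard : ℝ) / ((Systems n d H).ncard : ℝ) -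
          (1 / (2 * H + 1) ^ s) ^ S.card * (1 - 1 / (2 * H + 1) ^ s) ^ (I.card - S.card)| ≤
        C * (((d j : ℝ) + 1) ^ (-(1 / 3) : ℝ) + (B : ℝ) ^ (m + 1) / (2 * H + 1) ^ (d j + 1)) := by
  classical
  obtain ⟨C, hC, h⟩ := other_le m E hdim
  refine ⟨C, hC, fun s d j H B hd hH hB => ?_⟩
  have h1 := h s d j H B hH hB
  have e1 : Systems n d H = ↑(SF n d H) := systems_SF d H
  have e2 : OtherPoint E d H B = ↑((SF n d H).filter (fun F => IsBad E B F)) := by
    ext F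
    rw [Finset.mem_coe, Finset.mem_filter, mem_SF]
    exact Iff.rfl
  rw [e1, e2, Set.ncard_coe_finset, Set.ncard_coe_finset]
  refine ⟨h1, fun I S hI hS => ?_⟩
  have e3 : ExactPoints E d H B S =
      ↑((SF n d H).filter (fun F => Zeros E F B = coordPts S)) := by
    ext F
    rw [Finset.mem_coe, Finset.mem_filter, mem_SF]
    exact Iff.rfl
  rw [e3, Set.ncard_coe_finset]
  exact exact_le E hE d hd H B hB I S hI hS _ h1

end Pool.Agent.Helper17.DA
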