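import Pool.Agent.Helper17.DA.Anti
import Pool.Graph.R_seed8.R870.RC.Basic

set_option autoImplicit false

/-! # Forms vanishing at a point -/

namespace Pool.Agent.Helper17.DA

open Finset MvPolynomial Pool.Agent.R870.RC

theorem sum_glu {ι : Type*} [Fintype ι] {κ : Type*} [Fintype κ] (φ : κ → ι)
    (hφ : Function.Injective φ) (w : ι → ℤ) (a : κ → ℤ) (r : ↥(Set.range φ)ᶜ → ℤ)
    [Fintype ↥(Set.range φ)ᶜ] :
    ∑ i, glu φ hφ a r i * w i = ∑ k, a k * w (φ k) + ∑ x, r x * w x.1 := by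
  rw [← (spl φ hφ).sum_comp, Fintype.sum_sum_type]
  congr 1
  · refine Finset.sum_congr rfl fun k _ => ?_
    rw [spl_inl, glu_inl]
  · refine Finset.sum_congr rfl fun x _ => ?_
    rw [spl_inr, glu_inr]

theorem card_lin_le {ι : Type*} [Fintype ι] (M : ℕ) (φ : Fin M → ι) (hφ : Function.Injective φ)
    (H : ℕ) (w : ι → ℤ) (v : ℕ → ℤ) (hv : ∀ k : Fin M, w (φ k) = v k) (K : ℕ)
    (hK : ∀ t, cnt (bo H) M v t ≤ K) (t0 : ℤ) (S : Finset (ι → ℤ))
    (hS : ∀ c ∈ S, (∀ i, c i ∈ bo H) ∧ ∑ i, c i * w i = t0) :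
    S.card * (2 * H + 1) ^ M ≤ K * (2 * H + 1) ^ Fintype.card ι := by
  classical
  have h := card_le_of_split φ hφ (bo H) (fun c => ∑ i, c i * w i = t0) K (by
    intro r S hS
    refine le_trans (Finset.card_le_card ?_)
      ((card_eq_cnt (bo H) M v (t0 - ∑ x, r x * w x.1)).le.trans (hK _))
    intro a ha
    obtain ⟨h1, h2⟩ := hS a ha
    rw [Finset.mem_filter, Fintype.mem_piFinset]
    refine ⟨h1, ?_⟩
    rw [sum_glu] at h2
    simp only [hv] at h2
    linarith) S hS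
  rw [card_bo, Fintype.card_fin] at h
  exact h

variable {n : ℕ}

theorem eval_Phi {d : ℕ} (c : Mo n d → ℤ) (x : Fin (n + 1) → ℤ) :
    eval x (Phi n d c) = ∑ m : Mo n d, c m * ∏ k, x k ^ (m.1 k) := by
  unfold Phi
  rw [map_sum]
  refine Finset.sum_congr rfl fun m _ => ?_
  rw [eval_monomial]
  congr 1
  rw [Finsupp.prod_fintype]
  intro i
  exact pow_zero _

/-- coefficient vectors of a set of forms vanishing at `x` -/
theorem exists_coeffs {d : ℕ} (H : ℕ) (x : Fin (n + 1) → ℤ)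
    (T : Finset (MvPolynomial (Fin (n + 1)) ℤ)) (hT : ∀ F ∈ T, F ∈ FF n d H ∧ eval x F = 0) :
    ∃ S : Finset (Mo n d → ℤ), S.card = T.card ∧
      ∀ c ∈ S, (∀ m, c m ∈ bo H) ∧ ∑ m : Mo n d, c m * ∏ k, x k ^ (m.1 k) = 0 := by
  classical
  refine ⟨T.image (fun F (m : Mo n d) => F.coeff m.1), ?_, ?_⟩
  · refine Finset.card_image_of_injOn fun F hF G hG h => ?_
    have hF' := (mem_FF F).1 (hT F hF).1
    have hG' := (mem_FF G).1 (hT G hG).1
    ext m
    by_cases hm : m ∈ Mo n d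
    · exact congrFun h ⟨m, hm⟩
    · have h3 : ∀ K : MvPolynomial (Fin (n + 1)) ℤ, K.IsHomogeneous d → K.coeff m = 0 := by
        intro K hK
        by_contra hne
        apply hm
        rw [mem_Mo, Finsupp.degree_eq_weight_one]
        exact hK hne
      rw [h3 F hF'.1, h3 G hG'.1]
  · intro c hc
    rw [Finset.mem_image] at hc
    obtain ⟨F, hF, rfl⟩ := hc
    obtain ⟨h1, h2⟩ := hT F hF
    have hF' := (mem_FF F).1 h1
    refine ⟨fun m => ?_, ?_⟩
    · unfold bo
      rw [Finset.mem_Icc, ← abs_le]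
      exact hF'.2 _
    · have h3 : Phi n d (fun m => F.coeff m.1) = F := by
        ext m
        rw [coeff_Phi]
        by_cases h : m ∈ Mo n d
        · rw [dif_pos h]
        · rw [dif_neg h]
          by_contra hne
          apply h
          rw [mem_Mo, Finsupp.degree_eq_weight_one]
          exact hF'.1 (Ne.symm hne)
      rw [← eval_Phi, h3]
      exact h2

/-- the monomial `x_i ^ a x_j ^ (D - a)` -/
noncomputable def mon (i j : Fin (n + 1)) (D : ℕ) (a : Fin (D + 1)) : Mo n D :=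
  ⟨Finsupp.single i a.val + Finsupp.single j (D - a.val), by
    rw [mem_Mo, map_add, Finsupp.degree_single, Finsupp.degree_single]
    omega⟩

theorem mon_inj (i j : Fin (n + 1)) (hij : i ≠ j) (D : ℕ) : Function.Injective (mon i j D) := by
  intro a b hab
  have h := congrArg (fun m : Mo n D => m.1 i) hab
  simp only [mon, Finsupp.add_apply, Finsupp.single_eq_same, Finsupp.single_eq_of_ne hij] at h
  apply Fin.ext
  simpa using h

theorem mon_val (i j : Fin (n + 1)) (hij : i ≠ j) (D : ℕ) (a : Fin (D + 1)) (x : Fin (n + 1) → ℤ) :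
    ∏ k, x k ^ ((mon i j D a).1 k) = x i ^ a.val * x j ^ (D - a.val) := by
  classical
  have h1 : ∀ k, x k ^ ((mon i j D a).1 k) =
      (if k = i then x i ^ a.val else 1) * (if k = j then x j ^ (D - a.val) else 1) := by
    intro k
    simp only [mon, Finsupp.add_apply, pow_add]
    congr 1
    · by_cases h : k = i
      · subst h; simp
      · rw [if_neg h, Finsupp.single_eq_of_ne h, pow_zero]
    · by_cases h : k = j
      · subst h; simp
      · rw [if_neg h, Finsupp.single_eq_of_ne h, pow_zero]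
  simp only [h1, Finset.prod_mul_distrib, Finset.prod_ite_eq', Finset.mem_univ, if_true]

theorem card_FF_bo (d H : ℕ) : (FF n d H).card = (2 * H + 1) ^ Fintype.card (Mo n d) := by
  rw [card_FF, Fintype.card_coe]

theorem FF_pos (n d H : ℕ) : (0 : ℝ) < (FF n d H).card := by
  refine Nat.cast_pos.2 ?_
  rw [card_FF_bo]
  exact pow_pos (Nat.succ_pos _) _

/-- forms vanishing at a point, in terms of one chain of monomials -/
theorem card_chain (D H : ℕ) (x : Fin (n + 1) → ℤ) (i j : Fin (n + 1)) (hij : i ≠ j) (K : ℕ)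
    (hK : ∀ t, cnt (bo H) (D + 1) (fun a => x i ^ a * x j ^ (D - a)) t ≤ K)
    (T : Finset (MvPolynomial (Fin (n + 1)) ℤ)) (hT : ∀ F ∈ T, F ∈ FF n D H ∧ eval x F = 0) :
    T.card * (2 * H + 1) ^ (D + 1) ≤ K * (FF n D H).card := by
  obtain ⟨S, hS1, hS2⟩ := exists_coeffs H x T hT
  rw [card_FF_bo, ← hS1]
  exact card_lin_le (D + 1) (mon i j D) (mon_inj i j hij D) H
    (fun m : Mo n D => ∏ k, x k ^ (m.1 k)) (fun a => x i ^ a * x j ^ (D - a))
    (fun k => mon_val i j hij D k x) K hK 0 S hS2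

/-- points with a large modulus -/
theorem card_mod (D H m : ℕ) (hm : 1 ≤ m) (x : Fin (n + 1) → ℤ) (i j : Fin (n + 1)) (hij : i ≠ j)
    (hi : x i ≠ 0) (hmi : (m : ℤ) ∣ x i) (hmj : IsCoprime (m : ℤ) (x j))
    (T : Finset (MvPolynomial (Fin (n + 1)) ℤ)) (hT : ∀ F ∈ T, F ∈ FF n D H ∧ eval x F = 0) :
    T.card * (2 * H + 1) ^ (D + 1) ≤ (2 * H / m + 1) ^ (D + 1) * (FF n D H).card := by
  refine card_chain D H x i j hij _ (fun t => ?_) T hT
  have h := cnt_chain H m hm (x i) (x j) hi hmi hmj D 1 t one_ne_zero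
  simpa only [one_mul] using h

/-- points of height one -/
theorem card_unit (D H : ℕ) (hH : 1 ≤ H) (x : Fin (n + 1) → ℤ) (i j : Fin (n + 1)) (hij : i ≠ j)
    (hi : x i = 1 ∨ x i = -1) (hj : x j = 1 ∨ x j = -1)
    (T : Finset (MvPolynomial (Fin (n + 1)) ℤ)) (hT : ∀ F ∈ T, F ∈ FF n D H ∧ eval x F = 0) :
    ((T.card : ℝ) / ((FF n D H).card : ℝ)) ^ 3 ≤ 3 / (2 * (D + 1)) := by
  have hv : ∀ k, k < D + 1 → x i ^ k * x j ^ (D - k) = 1 ∨ x i ^ k * x j ^ (D - k) = -1 := by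
    intro k _
    have h1 : ∀ (y : ℤ) (a : ℕ), (y = 1 ∨ y = -1) → (y ^ a = 1 ∨ y ^ a = -1) := by
      intro y a hy
      rcases hy with h | h
      · left; rw [h, one_pow]
      · rw [h]; exact neg_one_pow_eq_or ℤ a
    rcases h1 (x i) k hi with h | h <;> rcases h1 (x j) (D - k) hj with h' | h' <;>
      rw [h, h'] <;> norm_num
  -- the largest value of the count
  obtain ⟨t0, ht0⟩ : ∃ t0, ∀ t, cnt (bo H) (D + 1) (fun a => x i ^ a * x j ^ (D - a)) t ≤
      cnt (bo H) (D + 1) (fun a => x i ^ a * x j ^ (D - a)) t0 := by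
    have hb : BddAbove (Set.range fun t =>
        cnt (bo H) (D + 1) (fun a => x i ^ a * x j ^ (D - a)) t) :=
      ⟨(bo H).card ^ (D + 1), by rintro _ ⟨t, rfl⟩; exact cnt_le_pow _ _ _ _⟩
    obtain ⟨t0, h0⟩ := Nat.sSup_mem (Set.range_nonempty fun t =>
      cnt (bo H) (D + 1) (fun a => x i ^ a * x j ^ (D - a)) t) hb
    refine ⟨t0, fun t => ?_⟩
    simp only at h0
    rw [h0]
    exact le_csSup hb ⟨t, rfl⟩
  have h1 := card_chain D H x i j hij _ ht0 T hT
  have h2 := cnt_unit H hH D (fun a => x i ^ a * x j ^ (D - a)) hv t0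
  have hF : (0 : ℝ) < (FF n D H).card := FF_pos n D H
  have h3 : (T.card : ℝ) / ((FF n D H).card : ℝ) ≤
      (cnt (bo H) (D + 1) (fun a => x i ^ a * x j ^ (D - a)) t0 : ℝ) / (2 * H + 1) ^ (D + 1) := by
    rw [div_le_div_iff₀ hF (by positivity)]
    exact_mod_cast h1
  exact (pow_le_pow_left₀ (div_nonneg (Nat.cast_nonneg _) (Nat.cast_nonneg _)) h3 3).trans h2

end Pool.Agent.Helper17.DA
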