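import Pool.Agent.Helper17.DA.Coord
import Pool.Agent.Helper17.RV.Hom
import Pool.Agent.Helper17.RV.LawDefs

set_option autoImplicit false

/-! # Rational points of varieties of large degree: assembly -/

namespace Pool.Agent.Helper17.DA

open Finset MvPolynomial Pool.Agent.R870.RC Pool.Agent.Helper17.RV

variable {n s : ℕ}

/-- the coordinate points with index in `S`, as primitive integral vectors -/
def coordPts (S : Finset (Fin (n + 1))) : Set (Fin (n + 1) → ℤ) :=
  {x | ∃ i ∈ S, x = Pi.single i 1 ∨ x = Pi.single i (-1)}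

theorem single_scale (i : Fin (n + 1)) (j : Fin (n + 1)) :
    (Pi.single i (-1) : Fin (n + 1) → ℤ) j = -1 * (Pi.single i 1 : Fin (n + 1) → ℤ) j := by
  by_cases h : j = i
  · subst h; simp
  · simp [Pi.single_eq_of_ne h]

theorem single_scale' (i : Fin (n + 1)) (j : Fin (n + 1)) :
    (Pi.single i 1 : Fin (n + 1) → ℤ) j = -1 * (Pi.single i (-1) : Fin (n + 1) → ℤ) j := by
  rw [single_scale]; ring

theorem eval_coord {d : ℕ} {F : MvPolynomial (Fin (n + 1)) ℤ} (hF : F.IsHomogeneous d)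
    (i : Fin (n + 1)) : eval (Pi.single i 1) F = F.coeff (Finsupp.single i d) := by
  classical
  rw [MvPolynomial.eval_eq']
  have h1 : ∀ m ∈ F.support, F.coeff m * ∏ k, (Pi.single i 1 : Fin (n + 1) → ℤ) k ^ m k =
      if m = Finsupp.single i d then F.coeff (Finsupp.single i d) else 0 := by
    intro m hm
    have hdeg : ∑ k, m k = d := by
      have h4 := hF (MvPolynomial.mem_support_iff.1 hm)
      rw [← h4, Finsupp.weight_apply, Finsupp.sum_fintype _ _ (by simp)]
      simp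
    by_cases h : m = Finsupp.single i d
    · rw [if_pos h, h]
      have h2 : ∏ k, (Pi.single i 1 : Fin (n + 1) → ℤ) k ^ (Finsupp.single i d) k = 1 := by
        refine Finset.prod_eq_one fun k _ => ?_
        by_cases hk : k = i
        · subst hk; simp
        · rw [Finsupp.single_eq_of_ne hk, pow_zero]
      rw [h2, mul_one]
    · rw [if_neg h]
      have h3 : ∃ k, k ≠ i ∧ m k ≠ 0 := by
        by_contra hcon
        push Not at hcon
        apply h
        ext k
        by_cases hk : k = i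
        · subst hk
          rw [Finsupp.single_eq_same, ← hdeg, Finset.sum_eq_single k (fun b _ hb => hcon b hb)
            (fun hb => absurd (Finset.mem_univ k) hb)]
        · rw [Finsupp.single_eq_of_ne hk]
          exact hcon k hk
      obtain ⟨k, hk, hmk⟩ := h3
      rw [Finset.prod_eq_zero (Finset.mem_univ k), mul_zero]
      rw [Pi.single_eq_of_ne hk, zero_pow hmk]
  rw [Finset.sum_congr rfl h1, Finset.sum_ite_eq']
  by_cases h : Finsupp.single i d ∈ F.support
  · rw [if_pos h]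
  · rw [if_neg h]
    exact (MvPolynomial.notMem_support_iff.1 h).symm

theorem eval_coord_neg {d H : ℕ} {F : MvPolynomial (Fin (n + 1)) ℤ} (hF : F ∈ Forms n d H)
    (i : Fin (n + 1)) : eval (Pi.single i (-1)) F = 0 ↔ eval (Pi.single i 1) F = 0 := by
  rw [eval_scale hF (-1) (Pi.single i (-1)) (Pi.single i 1) (single_scale i)]
  constructor
  · intro h
    exact (mul_eq_zero.1 h).resolve_left (pow_ne_zero _ (by norm_num))
  · intro h
    rw [h, mul_zero]

theorem gcd_single (i : Fin (n + 1)) (e : ℤ) (he : e = 1 ∨ e = -1) :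
    Finset.univ.gcd (Pi.single i e : Fin (n + 1) → ℤ) = 1 := by
  have h1 : Finset.univ.gcd (Pi.single i e : Fin (n + 1) → ℤ) ∣ 1 := by
    have h2 := Finset.gcd_dvd (f := (Pi.single i e : Fin (n + 1) → ℤ)) (Finset.mem_univ i)
    rw [Pi.single_eq_same] at h2
    rcases he with rfl | rfl
    · exact h2
    · exact (dvd_neg.1 h2)
  have h3 : normalize (Finset.univ.gcd (Pi.single i e : Fin (n + 1) → ℤ)) = 1 :=
    normalize_eq_one.2 (isUnit_of_dvd_one h1)
  rwa [Finset.normalize_gcd] at h3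

theorem coord_or (x : Fin (n + 1) → ℤ) (hx : Finset.univ.gcd x = 1) :
    (∃ i, x = Pi.single i 1 ∨ x = Pi.single i (-1)) ∨ ∃ i j, i ≠ j ∧ x i ≠ 0 ∧ x j ≠ 0 := by
  classical
  by_cases h : ∃ i j, i ≠ j ∧ x i ≠ 0 ∧ x j ≠ 0
  · exact Or.inr h
  · left
    push Not at h
    have h1 : ∃ i, x i ≠ 0 := by
      by_contra hcon
      push Not at hcon
      have : Finset.univ.gcd x = 0 := Finset.gcd_eq_zero_iff.2 fun i _ => hcon i
      rw [this] at hx
      exact zero_ne_one hx
    obtain ⟨i, hi⟩ := h1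
    refine ⟨i, ?_⟩
    have h2 : x = Pi.single i (x i) := by
      funext j
      by_cases hj : j = i
      · subst hj; simp
      · rw [Pi.single_eq_of_ne hj]
        exact h i j (Ne.symm hj) hi
    have h3 : x i ∣ Finset.univ.gcd x := Finset.dvd_gcd fun j _ => by
      by_cases hj : j = i
      · subst hj; exact dvd_rfl
      · rw [h i j (Ne.symm hj) hi]; exact dvd_zero _
    rw [hx] at h3
    rcases Int.isUnit_iff.1 (isUnit_of_dvd_one h3) with h4 | h4
    · left; rw [h2, h4]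
    · right; rw [h2, h4]

theorem card_update {ι : Type*} [Fintype ι] [DecidableEq ι] {α : Type*} [DecidableEq α]
    (f : ι → Finset α) (j : ι) (T : Finset α) (hT : T ⊆ f j) :
    ((Fintype.piFinset f).filter (fun F => F j ∈ T)).card * (f j).card =
      T.card * (Fintype.piFinset f).card := by
  rw [← Fintype.piFinset_update_eq_filter_piFinset_mem f j hT, Fintype.card_piFinset,
    Fintype.card_piFinset]
  have h1 : ∏ i, (Function.update f j T i).card = T.card * ∏ i ∈ Finset.univ.erase j, (f i).card := by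
    rw [← Finset.mul_prod_erase _ _ (Finset.mem_univ j), Function.update_self]
    congr 1
    refine Finset.prod_congr rfl fun i hi => ?_
    rw [Function.update_of_ne (Finset.mem_erase.1 hi).1]
  rw [h1, ← Finset.mul_prod_erase Finset.univ (fun i => (f i).card) (Finset.mem_univ j)]
  ring

/-- the finset of the systems -/
noncomputable def SF (n : ℕ) {s : ℕ} (d : Fin s → ℕ) (H : ℕ) :
    Finset (Fin s → MvPolynomial (Fin (n + 1)) ℤ) := Fintype.piFinset (fun l => FF n (d l) H)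

theorem mem_SF {d : Fin s → ℕ} {H : ℕ} {F : Fin s → MvPolynomial (Fin (n + 1)) ℤ} :
    F ∈ SF n d H ↔ F ∈ Systems n d H := by
  unfold SF
  rw [Fintype.mem_piFinset]
  exact forall_congr' fun i => mem_FF _

theorem SF_pos (d : Fin s → ℕ) (H : ℕ) : (0 : ℝ) < (SF n d H).card := by
  unfold SF
  rw [Fintype.card_piFinset]
  push_cast
  exact Finset.prod_pos fun i _ => FF_pos n (d i) H

/-- the systems with a zero on `V` of height at most `B` which is not a coordinate point -/
def IsBad (E : Set (MvPolynomial (Fin (n + 1)) ℚ)) (B : ℕ)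
    (F : Fin s → MvPolynomial (Fin (n + 1)) ℤ) : Prop :=
  ∃ x ∈ Zeros E F B, x ∉ coordPts (n := n) Finset.univ

theorem bad_two {E : Set (MvPolynomial (Fin (n + 1)) ℚ)} {B : ℕ}
    {F : Fin s → MvPolynomial (Fin (n + 1)) ℤ} (h : IsBad E B F) :
    ∃ x ∈ Zeros E F B, ∃ i j, i ≠ j ∧ x i ≠ 0 ∧ x j ≠ 0 := by
  obtain ⟨x, hx, hc⟩ := h
  refine ⟨x, hx, ?_⟩
  rcases coord_or x hx.1.1 with ⟨i, hi⟩ | h
  · exact absurd ⟨i, Finset.mem_univ i, hi⟩ hc
  · exact h

open Classical in
/-- proportion of bad systems, as a sum over the points -/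
theorem bad_le_sum (E : Set (MvPolynomial (Fin (n + 1)) ℚ)) (d : Fin s → ℕ) (j : Fin s) (H B : ℕ)
    (X : Finset (Fin (n + 1) → ℤ))
    (hX : ∀ x, x ∈ X ↔ (Finset.univ.gcd x = 1 ∧ InVar E x ∧ (∀ k, |x k| ≤ B) ∧
      ∃ i j, i ≠ j ∧ x i ≠ 0 ∧ x j ≠ 0)) :
    (((SF n d H).filter (fun F => IsBad E B F)).card : ℝ) / ((SF n d H).card : ℝ) ≤
      ∑ x ∈ X, ((((FF n (d j) H).filter (fun G => eval x G = 0)).card : ℝ) /
        ((FF n (d j) H).card : ℝ)) := by
  have hpos := SF_pos (n := n) d H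
  rw [div_le_iff₀ hpos, Finset.sum_mul]
  have h1 : (SF n d H).filter (fun F => IsBad E B F) ⊆ X.biUnion (fun x =>
      (SF n d H).filter (fun F => F j ∈ (FF n (d j) H).filter (fun G => eval x G = 0))) := by
    intro F hF
    rw [Finset.mem_filter] at hF
    obtain ⟨hF1, hF2⟩ := hF
    obtain ⟨x, hx, h2⟩ := bad_two hF2
    rw [Finset.mem_biUnion]
    refine ⟨x, (hX x).2 ⟨hx.1.1, hx.1.2, hx.2.1, h2⟩, ?_⟩
    rw [Finset.mem_filter, Finset.mem_filter]
    exact ⟨hF1, (mem_FF _).2 (mem_SF.1 hF1 j), hx.2.2 j⟩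
  have h2 : (((SF n d H).filter (fun F => IsBad E B F)).card : ℝ) ≤ ∑ x ∈ X,
      (((SF n d H).filter (fun F => F j ∈ (FF n (d j) H).filter (fun G => eval x G = 0))).card : ℝ) := by
    have h3 := (Finset.card_le_card h1).trans Finset.card_biUnion_le
    calc (((SF n d H).filter (fun F => IsBad E B F)).card : ℝ) ≤ ((∑ x ∈ X,
      ((SF n d H).filter (fun F => F j ∈ (FF n (d j) H).filter (fun G => eval x G = 0))).card : ℕ) : ℝ) :=
          Nat.cast_le.2 h3
      _ = _ := Nat.cast_sum _ _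
  refine h2.trans (le_of_eq (Finset.sum_congr rfl fun x _ => ?_))
  have h4 := card_update (fun l => FF n (d l) H) j ((FF n (d j) H).filter (fun G => eval x G = 0))
    (Finset.filter_subset _ _)
  have hF := FF_pos n (d j) H
  rw [div_mul_eq_mul_div, eq_div_iff hF.ne']
  unfold SF
  exact_mod_cast h4

/-- `2 ^ (-k)` against `del` -/
theorem two_pow_le (D k : ℕ) (n : ℕ) (hn : 1 ≤ n) (hk : D + 1 < 2 * n * (k + 1)) :
    1 / (2 : ℝ) ^ k ≤ 2 * n * del D := by
  have h1 : (k : ℝ) + 1 ≤ 2 ^ k := by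
    have h := Nat.lt_two_pow_self (n := k)
    have : k + 1 ≤ 2 ^ k := h
    exact_mod_cast this
  have h2 := inv_le_del D
  have hD : (0 : ℝ) < (D : ℝ) + 1 := by positivity
  have hk1 : (0 : ℝ) < (k : ℝ) + 1 := by positivity
  have hn0 : (0 : ℝ) < n := by exact_mod_cast hn
  have h3 : (D : ℝ) + 1 ≤ 2 * n * (k + 1) := by exact_mod_cast hk.le
  calc 1 / (2 : ℝ) ^ k ≤ 1 / ((k : ℝ) + 1) := one_div_le_one_div_of_le hk1 h1
    _ ≤ 2 * n * (1 / ((D : ℝ) + 1)) := by
        rw [mul_one_div, div_le_div_iff₀ hk1 hD]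
        linarith
    _ ≤ 2 * n * del D := mul_le_mul_of_nonneg_left h2 (by positivity)

theorem unit_ratio (D H : ℕ) (hH : 1 ≤ H) (x : Fin (n + 1) → ℤ) (i j : Fin (n + 1)) (hij : i ≠ j)
    (hi : x i ≠ 0) (hj : x j ≠ 0) (h1 : hgt x ≤ 1)
    (T : Finset (MvPolynomial (Fin (n + 1)) ℤ)) (hT : ∀ F ∈ T, F ∈ FF n D H ∧ eval x F = 0) :
    (T.card : ℝ) / ((FF n D H).card : ℝ) ≤ 2 * del D := by
  have key : ∀ k, x k ≠ 0 → x k = 1 ∨ x k = -1 := by
    intro k hk
    have h2 := (le_hgt x k).trans h1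
    omega
  have h3 := card_unit D H hH x i j hij (key i hi) (key j hj) T hT
  have h4 : (0 : ℝ) ≤ 2 * del D := mul_nonneg (by norm_num) (del_pos D).le
  refine le_of_pow_le_pow_left₀ (n := 3) (by norm_num) h4 (h3.trans ?_)
  rw [mul_pow, del_cube]
  have hD : (0 : ℝ) < (D : ℝ) + 1 := by positivity
  rw [mul_one_div, div_le_div_iff₀ (by positivity) hD]
  nlinarith

open Classical in
/-- proportion of bad systems -/
theorem bad_le (hn : 1 ≤ n) (E : Set (MvPolynomial (Fin (n + 1)) ℚ)) (A : ℝ) (m : ℕ) (hA0 : 0 ≤ A)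
    (hA : ∀ T : ℕ, 1 ≤ T → ∀ S : Finset (Fin (n + 1) → ℤ),
      (∀ x ∈ S, (∀ i, |x i| ≤ T) ∧ InVar E x) → (S.card : ℝ) ≤ A * (T : ℝ) ^ (m + 1))
    (d : Fin s → ℕ) (j : Fin s) (H B : ℕ) (hH : 1 ≤ H) (hB : 1 ≤ B) :
    (((SF n d H).filter (fun F => IsBad E B F)).card : ℝ) / ((SF n d H).card : ℝ) ≤
      (2 * 3 ^ (n + 1) + A + 6 ^ (n + 3) * (2 * n) + 2 * n * (n + 4)) *
        (del (d j) + (B : ℝ) ^ (m + 1) / (2 * H + 1) ^ (d j + 1)) := by
  set D := d j with hD
  have hdel := del_pos D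
  have hN : (0 : ℝ) < 2 * H + 1 := by positivity
  have hq0 : (0 : ℝ) ≤ (B : ℝ) ^ (m + 1) / (2 * H + 1) ^ (D + 1) := by positivity
  have hn0 : (1 : ℝ) ≤ n := by exact_mod_cast hn
  set k := (D + 1) / (2 * n) with hk
  have hk1 : 2 * n * k ≤ D + 1 := Nat.mul_div_le _ _
  have hk2 : D + 1 < 2 * n * (k + 1) := Nat.lt_mul_div_succ _ (by omega)
  rcases Nat.lt_or_ge k (n + 3) with hlt | hge
  · -- trivial case
    have h1 : (((SF n d H).filter (fun F => IsBad E B F)).card : ℝ) / ((SF n d H).card : ℝ) ≤ 1 := by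
      rw [div_le_one (SF_pos d H)]
      exact Nat.cast_le.2 (Finset.card_filter_le _ _)
    have h2 : (D : ℝ) + 1 ≤ 2 * n * (n + 4) := by
      have h3 : D + 1 ≤ 2 * n * (n + 4) := by
        refine hk2.le.trans (Nat.mul_le_mul_left _ (by omega))
      exact_mod_cast h3
    have hD0 : (0 : ℝ) < (D : ℝ) + 1 := by positivity
    have h4 : 1 ≤ 2 * (n : ℝ) * (n + 4) * del D := by
      have h5 := inv_le_del D
      have h6 : (1 : ℝ) ≤ 2 * n * (n + 4) * (1 / ((D : ℝ) + 1)) := by
        rw [mul_one_div, one_le_div hD0]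
        exact h2
      refine h6.trans (mul_le_mul_of_nonneg_left h5 (by positivity))
    have h7 : (0 : ℝ) ≤ 2 * 3 ^ (n + 1) + A + 6 ^ (n + 3) * (2 * n) := by positivity
    have h8 : (0 : ℝ) ≤ 2 * n * (n + 4) := by positivity
    nlinarith [mul_nonneg h7 hdel.le, mul_nonneg h7 hq0, mul_nonneg h8 hq0]
  · -- the set of points
    set X : Finset (Fin (n + 1) → ℤ) := (Fintype.piFinset (fun _ : Fin (n + 1) => bo B)).filter
      (fun x => Finset.univ.gcd x = 1 ∧ InVar E x ∧ ∃ i j, i ≠ j ∧ x i ≠ 0 ∧ x j ≠ 0) with hXdef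
    have hX : ∀ x, x ∈ X ↔ (Finset.univ.gcd x = 1 ∧ InVar E x ∧ (∀ k, |x k| ≤ B) ∧
      ∃ i j, i ≠ j ∧ x i ≠ 0 ∧ x j ≠ 0) := by
      intro x
      rw [hXdef, Finset.mem_filter, Fintype.mem_piFinset]
      have : (∀ a, x a ∈ bo B) ↔ ∀ k, |x k| ≤ B := by
        refine forall_congr' fun a => ?_
        unfold bo
        rw [Finset.mem_Icc, ← abs_le]
      rw [this]
      tauto
    refine (bad_le_sum E d j H B X hX).trans ?_
    -- split according to the height
    set ρ : (Fin (n + 1) → ℤ) → ℝ := fun x =>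
      ((((FF n (d j) H).filter (fun G => eval x G = 0)).card : ℝ) / ((FF n (d j) H).card : ℝ)) with hρ
    have hT : ∀ x, ∀ F ∈ (FF n (d j) H).filter (fun G => eval x G = 0),
        F ∈ FF n D H ∧ eval x F = 0 := fun x F hF => Finset.mem_filter.1 hF
    rw [← Finset.sum_filter_add_sum_filter_not X (fun x => hgt x ≤ 1)]
    have h1 : ∑ x ∈ X.filter (fun x => hgt x ≤ 1), ρ x ≤ 3 ^ (n + 1) * (2 * del D) := by
      have h2 : (X.filter (fun x => hgt x ≤ 1)).card ≤ 3 ^ (n + 1) := by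
        have h3 : X.filter (fun x => hgt x ≤ 1) ⊆ Fintype.piFinset (fun _ : Fin (n + 1) => bo 1) := by
          intro x hx
          rw [Finset.mem_filter] at hx
          rw [Fintype.mem_piFinset]
          intro i
          have h4 := (le_hgt x i).trans hx.2
          unfold bo
          rw [Finset.mem_Icc]
          omega
        refine (Finset.card_le_card h3).trans (le_of_eq ?_)
        rw [Fintype.card_piFinset, Finset.prod_const, card_bo, Finset.card_univ, Fintype.card_fin]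
      have h5 : ∀ x ∈ X.filter (fun x => hgt x ≤ 1), ρ x ≤ 2 * del D := by
        intro x hx
        rw [Finset.mem_filter] at hx
        obtain ⟨_, _, _, i, i', hii, hi, hi'⟩ := (hX x).1 hx.1
        exact unit_ratio D H hH x i i' hii hi hi' hx.2 _ (hT x)
      refine (Finset.sum_le_card_nsmul _ _ _ h5).trans ?_
      rw [nsmul_eq_mul]
      apply mul_le_mul_of_nonneg_right _ (mul_nonneg (by norm_num) hdel.le)
      exact_mod_cast h2
    have h2 : ∑ x ∈ X.filter (fun x => ¬ hgt x ≤ 1), ρ x ≤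
        A * (B : ℝ) ^ (m + 1) / (2 * H + 1) ^ (D + 1) + 6 ^ (n + 3) / 2 ^ k := by
      have h3 : ∀ x ∈ X.filter (fun x => ¬ hgt x ≤ 1),
          ρ x ≤ 1 / (2 * H + 1) ^ (D + 1) + 1 / (hgt x : ℝ) ^ k := by
        intro x hx
        rw [Finset.mem_filter] at hx
        exact rho_le D H k hk1 x ((hX x).1 hx.1).1 (by omega) _ (hT x)
      refine (Finset.sum_le_sum h3).trans ?_
      rw [Finset.sum_add_distrib, Finset.sum_const, nsmul_eq_mul]
      refine add_le_add ?_ ?_
      · have h4 := hA B hB (X.filter (fun x => ¬ hgt x ≤ 1)) (fun x hx => by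
          rw [Finset.mem_filter] at hx
          exact ⟨((hX x).1 hx.1).2.2.1, ((hX x).1 hx.1).2.1⟩)
        rw [mul_one_div]
        exact div_le_div_of_nonneg_right h4 (by positivity)
      · refine sum_points k B hge _ fun x hx => ?_
        rw [Finset.mem_filter] at hx
        refine ⟨by omega, ?_⟩
        obtain ⟨i, hi⟩ := exists_hgt x
        have h5 := ((hX x).1 hx.1).2.2.1 i
        rw [← hi]
        have h6 : ((x i).natAbs : ℤ) ≤ B := by rwa [Int.natCast_natAbs]
        exact_mod_cast h6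
    have h3 := two_pow_le D k n hn hk2
    have h4 : (6 : ℝ) ^ (n + 3) / 2 ^ k ≤ 6 ^ (n + 3) * (2 * n) * del D := by
      rw [div_eq_mul_one_div, mul_assoc]
      exact mul_le_mul_of_nonneg_left h3 (by positivity)
    refine (add_le_add h1 h2).trans ?_
    have h5 : (0 : ℝ) ≤ 2 * 3 ^ (n + 1) + 6 ^ (n + 3) * (2 * n) + 2 * n * (n + 4) := by positivity
    have h6 : (0 : ℝ) ≤ A + 2 * n * (n + 4) := by positivity
    have e : A * (B : ℝ) ^ (m + 1) / (2 * H + 1) ^ (D + 1) =
        A * ((B : ℝ) ^ (m + 1) / (2 * H + 1) ^ (D + 1)) := by ring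
    rw [e]
    nlinarith [mul_nonneg h5 hq0, mul_nonneg h6 hdel.le]

end Pool.Agent.Helper17.DA
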