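import Pool.Agent.Helper17.DA.FormCount
import Pool.Agent.Helper17.DA.Coprime

set_option autoImplicit false

/-! # Summation over the points which are not coordinate points -/

namespace Pool.Agent.Helper17.DA

open Finset MvPolynomial Pool.Agent.R870.RC

variable {n : ℕ}

/-- `(D + 1) ^ (-1/3)` -/
noncomputable def del (D : ℕ) : ℝ := ((D : ℝ) + 1) ^ (-(1 / 3 : ℝ))

theorem del_pos (D : ℕ) : 0 < del D := Real.rpow_pos_of_pos (by positivity) _

theorem del_cube (D : ℕ) : del D ^ 3 = 1 / ((D : ℝ) + 1) := by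
  unfold del
  rw [← Real.rpow_natCast, ← Real.rpow_mul (by positivity)]
  norm_num
  rw [Real.rpow_neg_one]

theorem inv_le_del (D : ℕ) : 1 / ((D : ℝ) + 1) ≤ del D := by
  unfold del
  rw [one_div, ← Real.rpow_neg_one]
  apply Real.rpow_le_rpow_of_exponent_le
  · have : (0 : ℝ) ≤ D := by positivity
    linarith
  · norm_num

theorem del_le_one (D : ℕ) : del D ≤ 1 := by
  unfold del
  apply Real.rpow_le_one_of_one_le_of_nonpos
  · have : (0 : ℝ) ≤ D := by positivity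
    linarith
  · norm_num

/-- height of an integral vector -/
def hgt (x : Fin (n + 1) → ℤ) : ℕ := Finset.univ.sup (fun k => (x k).natAbs)

theorem exists_hgt (x : Fin (n + 1) → ℤ) : ∃ i, (x i).natAbs = hgt x := by
  obtain ⟨i, _, h⟩ := Finset.exists_mem_eq_sup (Finset.univ : Finset (Fin (n + 1)))
    Finset.univ_nonempty (fun k => (x k).natAbs)
  exact ⟨i, h.symm⟩

theorem le_hgt (x : Fin (n + 1) → ℤ) (k : Fin (n + 1)) : (x k).natAbs ≤ hgt x :=
  Finset.le_sup (f := fun k => (x k).natAbs) (Finset.mem_univ k)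

/-- the real inequality for the residue classes -/
theorem ratio_sq (H m : ℕ) (hm : 1 ≤ m) (hmH : m ≤ 2 * H) :
    (((2 * H / m + 1 : ℕ) : ℝ) / (2 * (H : ℝ) + 1)) ^ 2 ≤ 1 / (m : ℝ) := by
  have hm0 : (0 : ℝ) < m := by exact_mod_cast hm
  have hH : (1 : ℝ) ≤ H := by
    have : 1 ≤ H := by omega
    exact_mod_cast this
  have h1 : ((2 * H / m + 1 : ℕ) : ℝ) ≤ 2 * H / m + 1 := by
    push_cast
    have h2 : ((2 * H / m : ℕ) : ℝ) ≤ ((2 * H : ℕ) : ℝ) / m := Nat.cast_div_le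
    push_cast at h2
    linarith
  have hmr : (m : ℝ) ≤ 2 * H := by exact_mod_cast hmH
  have hm1 : (1 : ℝ) ≤ m := by exact_mod_cast hm
  calc (((2 * H / m + 1 : ℕ) : ℝ) / (2 * (H : ℝ) + 1)) ^ 2
      ≤ ((2 * (H : ℝ) / (m : ℝ) + 1) / (2 * (H : ℝ) + 1)) ^ 2 := by
        gcongr
    _ ≤ 1 / (m : ℝ) := by
        rw [div_pow, div_le_div_iff₀ (by positivity) hm0, one_mul]
        have e : ((2 * (H : ℝ) / m + 1) ^ 2 * m) = (2 * H + m) ^ 2 / m := by
          field_simp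
        rw [e, div_le_iff₀ hm0]
        have h3 : (2 * (H : ℝ) + 1) ^ 2 * m - (2 * H + m) ^ 2 = (m - 1) * (4 * H ^ 2 - m) := by ring
        have h4 : 0 ≤ (m - 1 : ℝ) * (4 * H ^ 2 - m) := by
          apply mul_nonneg (by linarith)
          nlinarith
        linarith

theorem ratio_of_card (t f a N M : ℕ) (hf : 0 < f) (hN : 0 < N) (h : t * N ^ M ≤ a ^ M * f) :
    (t : ℝ) / (f : ℝ) ≤ ((a : ℝ) / (N : ℝ)) ^ M := by
  have h1 : (0 : ℝ) < f := by exact_mod_cast hf
  have h2 : (0 : ℝ) < N := by exact_mod_cast hN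
  rw [div_pow, div_le_div_iff₀ h1 (pow_pos h2 _)]
  exact_mod_cast h

/-- the forms vanishing at a point of height `h ≥ 2` -/
theorem rho_le (D H k : ℕ) (hk : 2 * n * k ≤ D + 1)
    (x : Fin (n + 1) → ℤ) (hprim : Finset.univ.gcd x = 1) (h2 : 2 ≤ hgt x)
    (T : Finset (MvPolynomial (Fin (n + 1)) ℤ)) (hT : ∀ F ∈ T, F ∈ FF n D H ∧ eval x F = 0) :
    (T.card : ℝ) / ((FF n D H).card : ℝ) ≤ 1 / (2 * H + 1) ^ (D + 1) + 1 / (hgt x : ℝ) ^ k := by
  obtain ⟨i, hi⟩ := exists_hgt x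
  generalize hgt x = h at hi h2 ⊢
  obtain ⟨j, hji, m, hm2, hmi, hmj, hle⟩ := exists_mod x i (by omega) hprim
  have hxi : x i ≠ 0 := by
    intro h0
    rw [h0] at hi
    simp at hi
    omega
  have hN : (0 : ℝ) < 2 * H + 1 := by positivity
  have h3 : (T.card : ℝ) / ((FF n D H).card : ℝ) ≤
      (((2 * H / m + 1 : ℕ) : ℝ) / (2 * H + 1)) ^ (D + 1) := by
    have h4 := ratio_of_card _ _ _ _ _ (Nat.cast_pos.1 (FF_pos n D H)) (Nat.succ_pos (2 * H))
      (card_mod D H m (by omega) x i j hji.symm hxi hmi hmj T hT)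
    refine h4.trans (le_of_eq ?_)
    simp only [Nat.succ_eq_add_one, Nat.cast_add, Nat.cast_mul, Nat.cast_ofNat, Nat.cast_one]
  generalize (T.card : ℝ) / ((FF n D H).card : ℝ) = ρ at h3 ⊢
  clear hT
  have hp1 : (0 : ℝ) ≤ 1 / (h : ℝ) ^ k := by positivity
  have hp2 : (0 : ℝ) ≤ 1 / (2 * H + 1) ^ (D + 1) := by positivity
  rcases Nat.lt_or_ge (2 * H) m with hlt | hge
  · rw [Nat.div_eq_of_lt hlt] at h3
    simp only [zero_add, Nat.cast_one, div_pow, one_pow] at h3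
    linarith
  · have h4 := ratio_sq H m (by omega) hge
    have hr0 : (0 : ℝ) ≤ ((2 * H / m + 1 : ℕ) : ℝ) / (2 * H + 1) := by positivity
    have hr1 : ((2 * H / m + 1 : ℕ) : ℝ) / (2 * H + 1) ≤ 1 := by
      rw [div_le_one hN]
      have : 2 * H / m ≤ 2 * H := Nat.div_le_self _ _
      push_cast
      have h5 : ((2 * H / m : ℕ) : ℝ) ≤ ((2 * H : ℕ) : ℝ) := Nat.cast_le.2 this
      push_cast at h5
      linarith
    have hm0 : (0 : ℝ) < m := by
      have : 0 < m := by omega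
      exact_mod_cast this
    have h6 : (((2 * H / m + 1 : ℕ) : ℝ) / (2 * H + 1)) ^ (D + 1) ≤ 1 / (h : ℝ) ^ k := by
      calc (((2 * H / m + 1 : ℕ) : ℝ) / (2 * H + 1)) ^ (D + 1)
          ≤ (((2 * H / m + 1 : ℕ) : ℝ) / (2 * H + 1)) ^ (2 * n * k) :=
            pow_le_pow_of_le_one hr0 hr1 hk
        _ = ((((2 * H / m + 1 : ℕ) : ℝ) / (2 * H + 1)) ^ 2) ^ (n * k) := by
            rw [← pow_mul, mul_assoc]
        _ ≤ (1 / m) ^ (n * k) := pow_le_pow_left₀ (by positivity) h4 _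
        _ = 1 / ((m : ℝ) ^ n) ^ k := by rw [one_div_pow, pow_mul]
        _ ≤ 1 / (h : ℝ) ^ k := by
            have h7 : (0 : ℝ) < h := by
              have : 0 < h := by omega
              exact_mod_cast this
            apply one_div_le_one_div_of_le (by positivity)
            apply pow_le_pow_left₀ h7.le
            rw [← hi]
            exact_mod_cast hle
    linarith

theorem sum_inv_sq (B : ℕ) : ∑ h ∈ Finset.Icc 2 B, 1 / ((h : ℝ)) ^ 2 ≤ 1 := by
  rcases Nat.eq_zero_or_pos B with hB | hB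
  · subst hB; simp
  have key : ∀ B : ℕ, ∑ h ∈ Finset.Icc 2 (B + 1), 1 / ((h : ℝ)) ^ 2 ≤ 1 - 1 / ((B : ℝ) + 1) := by
    intro B
    induction B with
    | zero => simp
    | succ B ih =>
      rw [Finset.sum_Icc_succ_top (by omega)]
      have h1 : 1 / (((B + 1 + 1 : ℕ) : ℝ)) ^ 2 ≤ 1 / ((B : ℝ) + 1) - 1 / (((B + 1 : ℕ) : ℝ) + 1) := by
        push_cast
        have e : 1 / ((B : ℝ) + 1) - 1 / ((B : ℝ) + 1 + 1) = 1 / (((B : ℝ) + 1) * (B + 1 + 1)) := by
          field_simp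
          ring
        rw [e]
        apply one_div_le_one_div_of_le (by positivity)
        nlinarith [(by positivity : (0 : ℝ) ≤ (B : ℝ))]
      linarith
  obtain ⟨B', rfl⟩ : ∃ B', B = B' + 1 := ⟨B - 1, by omega⟩
  have := key B'
  have h2 : (0 : ℝ) ≤ 1 / ((B' : ℝ) + 1) := by positivity
  linarith

/-- sum of `h ^ (-k)` over the points -/
theorem sum_points (k B : ℕ) (hk : n + 3 ≤ k) (X : Finset (Fin (n + 1) → ℤ))
    (hX : ∀ x ∈ X, 2 ≤ hgt x ∧ hgt x ≤ B) :
    ∑ x ∈ X, 1 / (hgt x : ℝ) ^ k ≤ 6 ^ (n + 3) / 2 ^ k := by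
  classical
  rw [← Finset.sum_fiberwise_of_maps_to (s := X) (t := Finset.Icc 2 B) (g := hgt)
    (fun x hx => Finset.mem_Icc.2 (hX x hx))]
  have h1 : ∀ h ∈ Finset.Icc 2 B, ∑ x ∈ X.filter (fun x => hgt x = h), 1 / (hgt x : ℝ) ^ k ≤
      6 ^ (n + 3) / 2 ^ k * (1 / (h : ℝ) ^ 2) := by
    intro h hh
    rw [Finset.mem_Icc] at hh
    have h2 : (X.filter (fun x => hgt x = h)).card ≤ (2 * h + 1) ^ (n + 1) := by
      have h3 : X.filter (fun x => hgt x = h) ⊆
          Fintype.piFinset (fun _ : Fin (n + 1) => bo h) := by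
        intro x hx
        rw [Finset.mem_filter] at hx
        rw [Fintype.mem_piFinset]
        intro i
        have h4 := le_hgt x i
        rw [hx.2] at h4
        unfold bo
        rw [Finset.mem_Icc]
        omega
      refine (Finset.card_le_card h3).trans (le_of_eq ?_)
      rw [Fintype.card_piFinset, Finset.prod_const, card_bo, Finset.card_univ, Fintype.card_fin]
    have hh0 : (0 : ℝ) < h := by
      have : 0 < h := by omega
      exact_mod_cast this
    have hh2 : (2 : ℝ) ≤ h := by exact_mod_cast hh.1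
    have e1 : ∑ x ∈ X.filter (fun x => hgt x = h), 1 / (hgt x : ℝ) ^ k =
        (X.filter (fun x => hgt x = h)).card * (1 / (h : ℝ) ^ k) := by
      rw [Finset.sum_congr rfl (fun x hx => by rw [(Finset.mem_filter.1 hx).2] : ∀ x ∈
        X.filter (fun x => hgt x = h), 1 / (hgt x : ℝ) ^ k = 1 / (h : ℝ) ^ k), Finset.sum_const,
        nsmul_eq_mul]
    rw [e1]
    obtain ⟨l, rfl⟩ : ∃ l, k = n + 3 + l := ⟨k - (n + 3), by omega⟩
    calc ((X.filter (fun x => hgt x = h)).card : ℝ) * (1 / (h : ℝ) ^ (n + 3 + l))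
        ≤ ((3 * h : ℝ)) ^ (n + 1) * (1 / (h : ℝ) ^ (n + 3 + l)) := by
          apply mul_le_mul_of_nonneg_right _ (by positivity)
          have h5 : ((X.filter (fun x => hgt x = h)).card : ℝ) ≤ (((2 * h + 1) ^ (n + 1) : ℕ) : ℝ) :=
            Nat.cast_le.2 h2
          refine h5.trans ?_
          push_cast
          apply pow_le_pow_left₀ (by positivity)
          linarith
      _ = 3 ^ (n + 1) * (1 / (h : ℝ) ^ 2) * (1 / (h : ℝ) ^ l) := by
          rw [mul_pow]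
          have e2 : (h : ℝ) ^ (n + 3 + l) = h ^ (n + 1) * h ^ 2 * h ^ l := by
            rw [← pow_add, ← pow_add]
          rw [e2]
          field_simp
      _ ≤ 3 ^ (n + 1) * (1 / (h : ℝ) ^ 2) * (1 / 2 ^ l) := by
          gcongr
      _ ≤ 6 ^ (n + 3) / 2 ^ (n + 3 + l) * (1 / (h : ℝ) ^ 2) := by
          have e3 : (6 : ℝ) ^ (n + 3) / 2 ^ (n + 3 + l) = 3 ^ (n + 3) * (1 / 2 ^ l) := by
            rw [pow_add 2 (n + 3) l, show (6 : ℝ) = 2 * 3 by norm_num, mul_pow]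
            field_simp
          rw [e3]
          have h6 : (3 : ℝ) ^ (n + 1) ≤ 3 ^ (n + 3) := pow_le_pow_right₀ (by norm_num) (by omega)
          have h7 : (0 : ℝ) ≤ (1 / (h : ℝ) ^ 2) * (1 / 2 ^ l) := by positivity
          nlinarith [mul_le_mul_of_nonneg_right h6 h7]
  refine (Finset.sum_le_sum h1).trans ?_
  rw [← Finset.mul_sum]
  have := sum_inv_sq B
  have h8 : (0 : ℝ) ≤ 6 ^ (n + 3) / 2 ^ k := by positivity
  nlinarith

end Pool.Agent.Helper17.DA
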