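import Mathlib

set_option autoImplicit false

/-! # Counting in boxes: splitting off some of the coordinates -/

namespace Pool.Agent.Helper17.DA

open Finset

section split

variable {ι κ : Type*}

/-- the coordinates of `ι`: those indexed by `κ` and the others -/
noncomputable def spl (φ : κ → ι) (hφ : Function.Injective φ) : κ ⊕ ↥(Set.range φ)ᶜ ≃ ι := by
  classical
  exact ((Equiv.ofInjective φ hφ).sumCongr (Equiv.refl _)).trans (Equiv.Set.sumCompl (Set.range φ))

theorem spl_inl (φ : κ → ι) (hφ : Function.Injective φ) (k : κ) : spl φ hφ (Sum.inl k) = φ k := by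
  simp [spl]

theorem spl_inr (φ : κ → ι) (hφ : Function.Injective φ) (x : ↥(Set.range φ)ᶜ) :
    spl φ hφ (Sum.inr x) = x.1 := by
  simp [spl]

/-- the vector with coordinates `a` on `κ` and `r` elsewhere -/
noncomputable def glu (φ : κ → ι) (hφ : Function.Injective φ) (a : κ → ℤ)
    (r : ↥(Set.range φ)ᶜ → ℤ) (i : ι) : ℤ := Sum.elim a r ((spl φ hφ).symm i)

theorem glu_inl (φ : κ → ι) (hφ : Function.Injective φ) (a : κ → ℤ) (r : ↥(Set.range φ)ᶜ → ℤ)
    (k : κ) : glu φ hφ a r (φ k) = a k := by
  unfold glu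
  rw [← spl_inl φ hφ k, Equiv.symm_apply_apply, Sum.elim_inl]

theorem glu_inr (φ : κ → ι) (hφ : Function.Injective φ) (a : κ → ℤ) (r : ↥(Set.range φ)ᶜ → ℤ)
    (x : ↥(Set.range φ)ᶜ) : glu φ hφ a r x.1 = r x := by
  unfold glu
  rw [← spl_inr φ hφ x, Equiv.symm_apply_apply, Sum.elim_inr]

theorem glu_self (φ : κ → ι) (hφ : Function.Injective φ) (c : ι → ℤ) :
    glu φ hφ (fun k => c (φ k)) (fun x => c x.1) = c := by
  funext i
  obtain ⟨y, rfl⟩ := (spl φ hφ).surjective i
  cases y with
  | inl k => rw [spl_inl, glu_inl]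
  | inr x => rw [spl_inr, glu_inr]

open Classical in
theorem card_split [Fintype ι] [Fintype κ] [DecidableEq ι] [DecidableEq κ] (φ : κ → ι) (hφ : Function.Injective φ) (B : Finset ℤ)
    (P : (ι → ℤ) → Prop) [DecidablePred P]
    [∀ r, DecidablePred (fun a : κ → ℤ => P (glu φ hφ a r))] :
    ((Fintype.piFinset (fun _ : ι => B)).filter P).card =
      ∑ r ∈ Fintype.piFinset (fun _ : ↥(Set.range φ)ᶜ => B),
        ((Fintype.piFinset (fun _ : κ => B)).filter (fun a => P (glu φ hφ a r))).card := by
  rw [Finset.card_eq_sum_card_fiberwise (f := fun (c : ι → ℤ) (x : ↥(Set.range φ)ᶜ) => c x.1)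
    (t := Fintype.piFinset (fun _ : ↥(Set.range φ)ᶜ => B))]
  · refine Finset.sum_congr rfl fun r hr => ?_
    rw [Fintype.mem_piFinset] at hr
    refine Finset.card_bij' (fun c _ k => c (φ k)) (fun a _ => glu φ hφ a r) ?_ ?_ ?_ ?_
    · intro c hc
      rw [Finset.mem_filter, Finset.mem_filter, Fintype.mem_piFinset] at hc
      rw [Finset.mem_filter, Fintype.mem_piFinset]
      refine ⟨fun k => hc.1.1 _, ?_⟩
      have h := glu_self φ hφ c
      rw [hc.2] at h
      rw [h]
      exact hc.1.2
    · intro a ha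
      rw [Finset.mem_filter, Fintype.mem_piFinset] at ha
      rw [Finset.mem_filter, Finset.mem_filter, Fintype.mem_piFinset]
      refine ⟨⟨fun i => ?_, ha.2⟩, ?_⟩
      · obtain ⟨y, rfl⟩ := (spl φ hφ).surjective i
        cases y with
        | inl k => rw [spl_inl, glu_inl]; exact ha.1 k
        | inr x => rw [spl_inr, glu_inr]; exact hr x
      · funext x
        exact glu_inr φ hφ a r x
    · intro c hc
      rw [Finset.mem_filter] at hc
      have h := glu_self φ hφ c
      rw [hc.2] at h
      exact h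
    · intro a _
      funext k
      exact glu_inl φ hφ a r k
  · intro c hc
    rw [Finset.mem_coe, Finset.mem_filter, Fintype.mem_piFinset] at hc
    rw [Finset.mem_coe, Fintype.mem_piFinset]
    exact fun x => hc.1 _

open Classical in
theorem card_rest [Fintype ι] [Fintype κ] [DecidableEq ι] [DecidableEq κ] (φ : κ → ι) (hφ : Function.Injective φ) (B : Finset ℤ) :
    (Fintype.piFinset (fun _ : ↥(Set.range φ)ᶜ => B)).card * B.card ^ Fintype.card κ =
      B.card ^ Fintype.card ι := by
  rw [Fintype.card_piFinset, Finset.prod_const, Finset.card_univ, ← pow_add]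
  congr 1
  rw [← Fintype.card_congr (spl φ hφ), Fintype.card_sum]
  ring

/-- if every choice of the other coordinates leaves at most `K` choices, then the whole count is at
most `K` times the number of the other choices -/
theorem card_le_of_split [Fintype ι] [Fintype κ] (φ : κ → ι) (hφ : Function.Injective φ)
    (B : Finset ℤ) (P : (ι → ℤ) → Prop) (K : ℕ)
    (hK : ∀ r : ↥(Set.range φ)ᶜ → ℤ, ∀ S : Finset (κ → ℤ),
      (∀ a ∈ S, (∀ k, a k ∈ B) ∧ P (glu φ hφ a r)) → S.card ≤ K)
    (S : Finset (ι → ℤ)) (hS : ∀ c ∈ S, (∀ i, c i ∈ B) ∧ P c) :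
    S.card * B.card ^ Fintype.card κ ≤ K * B.card ^ Fintype.card ι := by
  classical
  have h0 : S.card ≤ ((Fintype.piFinset (fun _ : ι => B)).filter P).card := by
    refine Finset.card_le_card fun c hc => ?_
    rw [Finset.mem_filter, Fintype.mem_piFinset]
    exact hS c hc
  have h := card_split φ hφ B P
  have h2 : ((Fintype.piFinset (fun _ : ι => B)).filter P).card ≤
      (Fintype.piFinset (fun _ : ↥(Set.range φ)ᶜ => B)).card * K := by
    refine le_trans (le_of_eq ?_) (Finset.sum_le_card_nsmul _
      (fun r => ((Fintype.piFinset (fun _ : κ => B)).filter (fun a => P (glu φ hφ a r))).card)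
      K fun r _ => ?_)
    · convert h using 3
    · refine hK r _ fun a ha => ?_
      rw [Finset.mem_filter, Fintype.mem_piFinset] at ha
      exact ha
  have h3 : (Fintype.piFinset (fun _ : ↥(Set.range φ)ᶜ => B)).card * B.card ^ Fintype.card κ =
      B.card ^ Fintype.card ι := by
    convert card_rest φ hφ B using 3
  calc _ ≤ ((Fintype.piFinset (fun _ : ↥(Set.range φ)ᶜ => B)).card * K) *
        B.card ^ Fintype.card κ := Nat.mul_le_mul_right _ (h0.trans h2)
    _ = K * ((Fintype.piFinset (fun _ : ↥(Set.range φ)ᶜ => B)).card *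
        B.card ^ Fintype.card κ) := by ring
    _ = K * B.card ^ Fintype.card ι := by rw [h3]

end split

/-! ### linear equations -/

/-- the number of solutions of `∑ c_k v_k = t` with `c_k ∈ B`, `k < M` -/
def cnt (B : Finset ℤ) : ℕ → (ℕ → ℤ) → ℤ → ℕ
  | 0, _, t => if t = 0 then 1 else 0
  | M + 1, v, t => ∑ c ∈ B, cnt B M (fun k => v (k + 1)) (t - c * v 0)

theorem card_eq_cnt (B : Finset ℤ) (M : ℕ) (v : ℕ → ℤ) (t : ℤ) :
    ((Fintype.piFinset (fun _ : Fin M => B)).filter
      (fun c => ∑ k, c k * v k.val = t)).card = cnt B M v t := by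
  induction M generalizing v t with
  | zero =>
    unfold cnt
    by_cases h : t = 0
    · rw [if_pos h]
      subst h
      simp
    · rw [if_neg h]
      rw [Finset.card_eq_zero, Finset.filter_eq_empty_iff]
      intro c _ h2
      simp at h2
      exact h h2.symm
  | succ M ih =>
    show _ = ∑ c ∈ B, cnt B M (fun k => v (k + 1)) (t - c * v 0)
    rw [Finset.card_eq_sum_card_fiberwise (f := fun (c : Fin (M + 1) → ℤ) => c 0) (t := B)]
    · refine Finset.sum_congr rfl fun b hb => ?_
      rw [← ih]
      refine Finset.card_bij' (fun c _ => Fin.tail c) (fun a _ => Fin.cons b a) ?_ ?_ ?_ ?_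
      · intro c hc
        rw [Finset.mem_filter, Finset.mem_filter, Fintype.mem_piFinset] at hc
        rw [Finset.mem_filter, Fintype.mem_piFinset]
        obtain ⟨⟨h1, h2⟩, h3⟩ := hc
        refine ⟨fun k => h1 _, ?_⟩
        rw [Fin.sum_univ_succ, h3] at h2
        simp only [Fin.val_zero, Fin.val_succ] at h2
        rw [← h2]
        simp only [Fin.tail]
        ring
      · intro a ha
        rw [Finset.mem_filter, Fintype.mem_piFinset] at ha
        rw [Finset.mem_filter, Finset.mem_filter, Fintype.mem_piFinset]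
        refine ⟨⟨fun k => ?_, ?_⟩, rfl⟩
        · refine Fin.cases ?_ (fun k => ?_) k
          · exact hb
          · exact ha.1 k
        · rw [Fin.sum_univ_succ]
          simp only [Fin.cons_zero, Fin.cons_succ, Fin.val_zero, Fin.val_succ]
          rw [ha.2]
          ring
      · intro c hc
        rw [Finset.mem_filter] at hc
        rw [← hc.2]
        exact Fin.cons_self_tail c
      · intro a _
        rfl
    · intro c hc
      rw [Finset.mem_coe, Finset.mem_filter, Fintype.mem_piFinset] at hc
      exact hc.1 0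

theorem cnt_zero_of_not_dvd (B : Finset ℤ) (M : ℕ) (v : ℕ → ℤ) (t g : ℤ) (hv : ∀ k, k < M → g ∣ v k)
    (ht : ¬ g ∣ t) : cnt B M v t = 0 := by
  induction M generalizing v t with
  | zero =>
    unfold cnt
    rw [if_neg]
    rintro rfl
    exact ht (dvd_zero g)
  | succ M ih =>
    show ∑ c ∈ B, cnt B M (fun k => v (k + 1)) (t - c * v 0) = 0
    refine Finset.sum_eq_zero fun c _ => ih _ _ (fun k hk => hv _ (by omega)) ?_
    intro h
    apply ht
    have h2 : g ∣ c * v 0 := Dvd.dvd.mul_left (hv 0 (by omega)) c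
    have := dvd_add h h2
    rwa [sub_add_cancel] at this

theorem cnt_le_pow (B : Finset ℤ) (M : ℕ) (v : ℕ → ℤ) (t : ℤ) : cnt B M v t ≤ B.card ^ M := by
  induction M generalizing v t with
  | zero => unfold cnt; split_ifs <;> simp
  | succ M ih =>
    show ∑ c ∈ B, cnt B M (fun k => v (k + 1)) (t - c * v 0) ≤ _
    refine (Finset.sum_le_card_nsmul _ _ _ fun c _ => ih _ _).trans (le_of_eq ?_)
    rw [smul_eq_mul, pow_succ]
    ring

end Pool.Agent.Helper17.DA
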